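import Mathlib

set_option autoImplicit false

/-!
# Hecke algebras of Coxeter groups with a weight function: definitions

Positive weight functions, the Hecke algebra of `(W, S, L)` with its standard basis, the bar
involution, the Kazhdan-Lusztig basis and the function `a` of Lusztig.
-/

namespace Pool.Agent.TH5.BD

open CoxeterSystem Module

/-- The coefficient ring `ℤ[q, q⁻¹]`. -/
abbrev A : Type := LaurentPolynomial ℤ

/-- the power `q ^ n` -/
noncomputable abbrev q (n : ℤ) : A := LaurentPolynomial.T n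

variable {B : Type*} {M : CoxeterMatrix B} {W : Type*} [Group W]

/-- `L` is a positive weight function: additive on length-additive products, and positive on the
simple reflections. -/
structure IsWeight (cs : CoxeterSystem M W) (L : W → ℤ) : Prop where
  add : ∀ w w' : W, cs.length (w * w') = cs.length w + cs.length w' → L (w * w') = L w + L w'
  pos : ∀ i : B, 0 < L (cs.simple i)

/-- `T` is the standard basis of the Hecke algebra `H` of `(W, S, L)`:
`T_{ww'} = T_w T_{w'}` if `ℓ(ww') = ℓ(w) + ℓ(w')`, and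
`T_s ^ 2 = 1 + (q ^ L(s) - q ^ (-L(s))) T_s`. -/
structure IsHecke {H : Type*} [Ring H] [Algebra A H] (cs : CoxeterSystem M W) (L : W → ℤ)
    (T : Basis W A H) : Prop where
  mul : ∀ w w' : W, cs.length (w * w') = cs.length w + cs.length w' → T (w * w') = T w * T w'
  quad : ∀ i : B, T (cs.simple i) * T (cs.simple i) =
    1 + (q (L (cs.simple i)) - q (-L (cs.simple i))) • T (cs.simple i)

/-- `bar` is the bar involution: the ring endomorphism with `q ↦ q⁻¹` and
`T_w ↦ (T_{w⁻¹})⁻¹`. -/
structure IsBar {H : Type*} [Ring H] [Algebra A H] (T : Basis W A H) (bar : H →+* H) : Prop where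
  scalar : ∀ a : A, bar (algebraMap A H a) = algebraMap A H (LaurentPolynomial.invert a)
  left_inv : ∀ w : W, bar (T w) * T w⁻¹ = 1
  right_inv : ∀ w : W, T w⁻¹ * bar (T w) = 1

/-- `a` lies in `q⁻¹ ℤ[q⁻¹]`: only negative powers of `q` occur. -/
def IsNeg (a : A) : Prop := ∀ n : ℤ, 0 ≤ n → a.coeff n = 0

/-- `C` is the Kazhdan-Lusztig basis: `C_w` is fixed by the bar involution and
`C_w ≡ T_w` modulo `⊕_y q⁻¹ ℤ[q⁻¹] T_y`. -/
structure IsKL {H : Type*} [Ring H] [Algebra A H] (T : Basis W A H) (bar : H →+* H)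
    (C : Basis W A H) : Prop where
  bar_eq : ∀ w : W, bar (C w) = C w
  cong : ∀ w y : W, IsNeg (T.repr (C w - T w) y)

/-- Lusztig's function `a : W → ℕ ∪ {∞}`: `a(w)` is the supremum of the exponents `n ≥ 0` of `q`
that occur in the coefficients `h_{x,y,w}` of `C_w` in the products `C_x C_y`. -/
noncomputable def aFun {H : Type*} [Ring H] [Algebra A H] (C : Basis W A H) (w : W) : ℕ∞ :=
  ⨆ (x : W) (y : W) (n : ℕ) (_ : (C.repr (C x * C y) w).coeff (n : ℤ) ≠ 0), (n : ℕ∞)

end Pool.Agent.TH5.BD
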