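import Mathlib
import Pool.Agent.Helper703.KL.Cox

set_option autoImplicit false

/-!
# Roots, the invariant form, and dominance of roots in a Coxeter group
-/

namespace Pool.Agent.TH5.BD

open CoxeterSystem Pool.Agent.Helper703.Cox

variable {B : Type*} {M : CoxeterMatrix B} [Fintype B] [DecidableEq B]
variable {W : Type*} [Group W] (cs : CoxeterSystem M W)

variable (M) in
/-- twice the invariant bilinear form -/
noncomputable def bf : (B → ℝ) →ₗ[ℝ] (B → ℝ) →ₗ[ℝ] ℝ :=
  ∑ i, (LinearMap.proj (R := ℝ) (φ := fun _ : B => ℝ) i).smulRight (coroot M i)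

lemma bf_apply (u v : B → ℝ) : bf M u v = ∑ i, u i * coroot M i v := by
  simp [bf, LinearMap.sum_apply]

lemma coroot_apply (i : B) (v : B → ℝ) : coroot M i v = ∑ j, (-2 * cc M i j) * v j := by
  simp [coroot, LinearMap.sum_apply]

lemma bf_ee (i : B) (v : B → ℝ) : bf M (ee i) v = coroot M i v := by
  rw [bf_apply, Finset.sum_eq_single i]
  · simp [ee]
  · intro j _ hj
    simp [ee, hj]
  · intro h; exact absurd (Finset.mem_univ i) h

lemma bf_symm (u v : B → ℝ) : bf M u v = bf M v u := by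
  simp only [bf_apply, coroot_apply, Finset.mul_sum]
  rw [Finset.sum_comm]
  refine Finset.sum_congr rfl fun i _ => Finset.sum_congr rfl fun j _ => ?_
  rw [cc_symm]
  ring

lemma bf_ee_self (i : B) : bf M (ee i) (ee i) = 2 := by
  rw [bf_ee, coroot_ee, cc_self]; norm_num

lemma bf_sg (i : B) (u v : B → ℝ) : bf M (sg M i u) (sg M i v) = bf M u v := by
  rw [sg_apply, sg_apply, ← bf_ee, ← bf_ee]
  have h1 : bf M u (ee i) = bf M (ee i) u := bf_symm _ _
  simp only [map_sub, LinearMap.sub_apply, map_smul, LinearMap.smul_apply, smul_eq_mul,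
    bf_ee_self, h1]
  ring

lemma bf_geo (w : W) (u v : B → ℝ) : bf M (geo cs w u) (geo cs w v) = bf M u v := by
  obtain ⟨ω, rfl⟩ := cs.wordProd_surjective w
  rw [geo_wordProd]
  induction ω with
  | nil => simp
  | cons i ω ih =>
    rw [List.map_cons, List.prod_cons, Module.End.mul_apply, Module.End.mul_apply, bf_sg, ih]

/-- real roots of the geometric representation -/
def IsRoot (β : B → ℝ) : Prop := ∃ (w : W) (i : B), β = geo cs w (ee i)

variable {cs}

lemma IsRoot.geo {β : B → ℝ} (h : IsRoot cs β) (w : W) : IsRoot cs (geo cs w β) := by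
  obtain ⟨v, i, rfl⟩ := h
  exact ⟨w * v, i, by rw [map_mul, Module.End.mul_apply]⟩

lemma isRoot_ee (i : B) : IsRoot cs (ee i) := ⟨1, i, by simp⟩

lemma IsRoot.sg {β : B → ℝ} (h : IsRoot cs β) (i : B) : IsRoot cs (sg M i β) := by
  have := h.geo (cs.simple i)
  rwa [geo_simple] at this

lemma IsRoot.neg {β : B → ℝ} (h : IsRoot cs β) : IsRoot cs (-β) := by
  obtain ⟨v, i, rfl⟩ := h
  refine ⟨v * cs.simple i, i, ?_⟩
  rw [map_mul, Module.End.mul_apply, geo_simple, sg_ee_self, map_neg]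

lemma IsRoot.sign {β : B → ℝ} (h : IsRoot cs β) : 0 ≤ β ∨ β ≤ 0 := by
  obtain ⟨v, i, rfl⟩ := h
  rcases cs.length_mul_simple v i with h1 | h1
  · exact Or.inl (geo_nonneg cs v i (by omega))
  · exact Or.inr (geo_nonpos cs v i (by omega))

lemma IsRoot.ne_zero {β : B → ℝ} (h : IsRoot cs β) : β ≠ 0 := by
  obtain ⟨v, i, rfl⟩ := h
  exact geo_ee_ne_zero cs v i

lemma IsRoot.bf_self {β : B → ℝ} (h : IsRoot cs β) : bf M β β = 2 := by
  obtain ⟨v, i, rfl⟩ := h
  rw [bf_geo, bf_ee_self]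

lemma IsRoot.not_nonpos {β : B → ℝ} (h : IsRoot cs β) (h0 : 0 ≤ β) : ¬ β ≤ 0 :=
  fun h1 => h.ne_zero (le_antisymm h1 h0)

lemma IsRoot.nonneg_of_not {β : B → ℝ} (h : IsRoot cs β) (h0 : ¬ β ≤ 0) : 0 ≤ β :=
  h.sign.resolve_right h0

/-- the reflection in a root -/
lemma IsRoot.reflection {β : B → ℝ} (h : IsRoot cs β) :
    ∃ t : W, ∀ v, Pool.Agent.Helper703.Cox.geo cs t v = v - bf M β v • β := by
  obtain ⟨w, i, rfl⟩ := h
  refine ⟨w * cs.simple i * w⁻¹, fun v => ?_⟩
  have h1 : bf M (Pool.Agent.Helper703.Cox.geo cs w (ee i)) v =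
      bf M (ee i) (Pool.Agent.Helper703.Cox.geo cs w⁻¹ v) := by
    conv_lhs => rw [← geo_apply_inv cs w v]
    rw [bf_geo]
  rw [map_mul, map_mul, Module.End.mul_apply, Module.End.mul_apply, geo_simple, sg_apply, map_sub,
    geo_apply_inv, map_smul, h1, bf_ee]

/-- A simple reflection permutes the other positive roots. -/
lemma IsRoot.simple_pos {β : B → ℝ} (h : IsRoot cs β) (h0 : 0 ≤ β) {i : B} (hi : β ≠ ee i) :
    0 ≤ Pool.Agent.Helper703.Cox.sg M i β := by
  rcases (h.sg i).sign with h1 | h1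
  · exact h1
  exfalso
  rw [sg_apply] at h1
  have h2 : ∀ j, j ≠ i → β j = 0 := by
    intro j hj
    have h3 := h1 j
    have h4 := h0 j
    simp only [Pi.sub_apply, Pi.smul_apply, ee, Pi.single_apply, hj, if_false, smul_eq_mul,
      mul_zero, sub_zero, Pi.zero_apply] at h3 h4
    exact le_antisymm h3 h4
  have h5 : β = β i • ee i := by
    funext j
    by_cases hj : j = i
    · subst hj; simp [ee]
    · simp [ee, hj, h2 j hj]
  have h6 := h.bf_self
  rw [h5, map_smul, LinearMap.map_smul, LinearMap.smul_apply, bf_ee_self] at h6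
  have h7 : 0 ≤ β i := h0 i
  have h8 : β i = 1 := by
    simp only [smul_eq_mul] at h6
    nlinarith
  rw [h8, one_smul] at h5
  exact hi h5

/-- positive roots made negative by `w` -/
def Inv (cs : CoxeterSystem M W) (w : W) : Set (B → ℝ) :=
  {β | IsRoot cs β ∧ 0 ≤ β ∧ geo cs w β ≤ 0}

lemma inv_finite (w : W) : (Inv cs w).Finite := by
  obtain ⟨ω, rfl⟩ := cs.wordProd_surjective w
  induction ω using List.reverseRecOn with
  | nil =>
    have : Inv cs (cs.wordProd []) = ∅ := by
      ext β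
      simp only [Inv, wordProd_nil, map_one, Module.End.one_apply, Set.mem_setOf_eq,
        Set.mem_empty_iff_false, iff_false]
      rintro ⟨h, h0, h1⟩
      exact h.not_nonpos h0 h1
    rw [this]
    exact Set.finite_empty
  | append_singleton ω i ih =>
    refine ((ih.image (Pool.Agent.Helper703.Cox.sg M i)).insert (ee i)).subset ?_
    rintro β ⟨h, h0, h1⟩
    by_cases hb : β = ee i
    · exact Set.mem_insert_iff.2 (Or.inl hb)
    refine Set.mem_insert_iff.2 (Or.inr ⟨Pool.Agent.Helper703.Cox.sg M i β, ⟨h.sg i,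
      h.simple_pos h0 hb, ?_⟩, sg_sg M i β⟩)
    rw [cs.wordProd_append, map_mul, Module.End.mul_apply, cs.wordProd_singleton, geo_simple] at h1
    exact h1

variable (cs) in
/-- dominance: every `w` making `β` negative makes `γ` negative -/
def Dom (β γ : B → ℝ) : Prop := ∀ w : W, geo cs w β ≤ 0 → geo cs w γ ≤ 0

lemma Dom.refl (β : B → ℝ) : Dom cs β β := fun _ h => h

lemma Dom.trans {β γ δ : B → ℝ} (h : Dom cs β γ) (h' : Dom cs γ δ) : Dom cs β δ :=
  fun w hw => h' w (h w hw)

lemma Dom.sg {β γ : B → ℝ} (h : Dom cs β γ) (i : B) :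
    Dom cs (Pool.Agent.Helper703.Cox.sg M i β) (Pool.Agent.Helper703.Cox.sg M i γ) := by
  intro w hw
  have := h (w * cs.simple i)
  rw [map_mul, Module.End.mul_apply, Module.End.mul_apply, geo_simple] at this
  exact this hw

lemma Dom.sg' {β γ : B → ℝ} {i : B} (h : Dom cs (Pool.Agent.Helper703.Cox.sg M i β) γ) :
    Dom cs β (Pool.Agent.Helper703.Cox.sg M i γ) := by
  have := h.sg i
  rwa [sg_sg] at this

lemma Dom.sg'' {β γ : B → ℝ} {i : B} (h : Dom cs β (Pool.Agent.Helper703.Cox.sg M i γ)) :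
    Dom cs (Pool.Agent.Helper703.Cox.sg M i β) γ := by
  have := h.sg i
  rwa [sg_sg] at this

/-- key monotonicity -/
lemma Dom.low {β γ : B → ℝ} {i : B} (hb : coroot M i β ≤ 0) (hc : coroot M i γ ≤ 0)
    (h : Dom cs (Pool.Agent.Helper703.Cox.sg M i β) γ) : Dom cs β γ := by
  intro w hw
  rcases ((isRoot_ee (cs := cs) i).geo w).sign with h1 | h1
  · have h2 := h (w * cs.simple i)
    rw [map_mul, Module.End.mul_apply, Module.End.mul_apply, geo_simple, sg_sg] at h2
    have h3 := h2 hw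
    rw [sg_apply, map_sub, map_smul] at h3
    intro j
    have h4 := h3 j
    have h5 := h1 j
    simp only [Pi.sub_apply, Pi.smul_apply, smul_eq_mul, Pi.zero_apply] at h4 h5 ⊢
    nlinarith
  · apply h
    rw [sg_apply, map_sub, map_smul]
    intro j
    have h4 := hw j
    have h5 := h1 j
    simp only [Pi.sub_apply, Pi.smul_apply, smul_eq_mul, Pi.zero_apply] at h4 h5 ⊢
    nlinarith

/-- antichains of dominance -/
def Anti (cs : CoxeterSystem M W) (F : Finset (B → ℝ)) : Prop :=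
  ∀ β ∈ F, ∀ γ ∈ F, β ≠ γ → ¬ Dom cs β γ

end Pool.Agent.TH5.BD
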