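import Mathlib
import Pool.Agent.TH5.BD.Geo

set_option autoImplicit false
set_option linter.unusedSectionVars false

/-!
# Two roots: infinite and finite dihedral groups
-/

namespace Pool.Agent.TH5.BD

open CoxeterSystem Pool.Agent.Helper703.Cox

variable {B : Type*} {M : CoxeterMatrix B} [Fintype B] [DecidableEq B]
variable {W : Type*} [Group W] {cs : CoxeterSystem M W}

/-- sum of coordinates -/
noncomputable def lam : (B → ℝ) →ₗ[ℝ] ℝ := ∑ i, LinearMap.proj (R := ℝ) (φ := fun _ : B => ℝ) i

lemma lam_apply (v : B → ℝ) : lam v = ∑ i, v i := by simp [lam, LinearMap.sum_apply]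

lemma lam_pos {v : B → ℝ} (h : 0 ≤ v) (hv : v ≠ 0) : 0 < lam v := by
  rw [lam_apply]
  have h1 : ∃ i, v i ≠ 0 := by
    by_contra hc
    push Not at hc
    exact hv (funext hc)
  obtain ⟨i, hi⟩ := h1
  exact Finset.sum_pos' (fun j _ => h j) ⟨i, Finset.mem_univ i, lt_of_le_of_ne (h i) (Ne.symm hi)⟩

/-- Rank two computation: the rotation `c = r_β r_γ`. -/
lemma rot {β γ : B → ℝ} (hβ : IsRoot cs β) (hγ : IsRoot cs γ) :
    ∃ c : W, (∀ v, geo cs c v = v - bf M γ v • γ - bf M β (v - bf M γ v • γ) • β) := by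
  obtain ⟨r, hr⟩ := hβ.reflection
  obtain ⟨s, hs⟩ := hγ.reflection
  exact ⟨r * s, fun v => by rw [map_mul, Module.End.mul_apply, hs, hr]⟩

lemma rot_left {β γ : B → ℝ} (hβ : IsRoot cs β) {c : W}
    (hc : ∀ v, geo cs c v = v - bf M γ v • γ - bf M β (v - bf M γ v • γ) • β) :
    geo cs c β = ((bf M β γ) ^ 2 - 1) • β - (bf M β γ) • γ := by
  rw [hc, map_sub, map_smul, bf_symm γ β, hβ.bf_self]
  simp only [smul_eq_mul]
  module

lemma rot_right {β γ : B → ℝ} (hγ : IsRoot cs γ) {c : W}
    (hc : ∀ v, geo cs c v = v - bf M γ v • γ - bf M β (v - bf M γ v • γ) • β) :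
    geo cs c γ = (bf M β γ) • β - γ := by
  rw [hc, map_sub, map_smul, hγ.bf_self]
  simp only [smul_eq_mul]
  module

/-- the coefficient sequences -/
noncomputable def pq (t : ℝ) : ℕ → ℝ × ℝ
  | 0 => (1, 0)
  | k + 1 => ((pq t k).1 * (t ^ 2 - 1) - (pq t k).2 * t, (pq t k).1 * t - (pq t k).2)

lemma pq_prop {t : ℝ} (ht : 2 ≤ t) (k : ℕ) :
    0 ≤ (pq t k).2 ∧ (pq t k).2 < (pq t k).1 := by
  induction k with
  | zero => simp [pq]
  | succ k ih =>
    obtain ⟨h1, h2⟩ := ih
    simp only [pq]
    constructor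
    · nlinarith
    · nlinarith [mul_nonneg (sub_nonneg.2 ht) (by linarith : (0:ℝ) ≤ t),
        mul_pos (sub_pos.2 h2) (by linarith : 0 < t - 1),
        mul_nonneg (by linarith : 0 ≤ (pq t k).1) (mul_nonneg (sub_nonneg.2 ht)
          (by linarith : (0:ℝ) ≤ t))]

lemma pq_lt {t : ℝ} (ht : 2 ≤ t) (k : ℕ) :
    (pq t k).1 < (pq t (k + 1)).1 := by
  obtain ⟨h1, h2⟩ := pq_prop ht k
  simp only [pq]
  have h3 : 0 ≤ (pq t k).1 * ((t - 2) * (t + 1)) :=
    mul_nonneg (by linarith) (mul_nonneg (by linarith) (by linarith))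
  have h4 : 0 < ((pq t k).1 - (pq t k).2) * t := mul_pos (by linarith) (by linarith)
  nlinarith

lemma pq_le {t : ℝ} (ht : 2 ≤ t) (k : ℕ) : (pq t k).2 ≤ (pq t (k + 1)).2 := by
  obtain ⟨h1, h2⟩ := pq_prop ht k
  simp only [pq]
  have h4 : 0 ≤ (pq t k).1 * (t - 2) := mul_nonneg (by linarith) (by linarith)
  nlinarith

lemma rot_pow {β γ : B → ℝ} (hβ : IsRoot cs β) (hγ : IsRoot cs γ) {c : W}
    (hc : ∀ v, geo cs c v = v - bf M γ v • γ - bf M β (v - bf M γ v • γ) • β) (k : ℕ) :
    geo cs (c ^ k) β = (pq (-(bf M β γ)) k).1 • β + (pq (-(bf M β γ)) k).2 • γ := by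
  induction k with
  | zero => simp [pq]
  | succ k ih =>
    rw [pow_succ', map_mul, Module.End.mul_apply, ih, map_add, map_smul, map_smul,
      rot_left hβ hc, rot_right hγ hc]
    simp only [pq]
    module

/-- If `(β, γ) ≤ -1` and some `w` makes both nonpositive, then there are infinitely many roots
`p β + q γ` with `p, q ≥ 0`. -/
lemma inf_roots {β γ : B → ℝ} (hβ : IsRoot cs β) (hγ : IsRoot cs γ) (ht : bf M β γ ≤ -2)
    {w : W} (h1 : geo cs w β ≤ 0) (h2 : geo cs w γ ≤ 0) :
    ∃ δ : ℕ → (B → ℝ), Function.Injective δ ∧ ∀ k, IsRoot cs (δ k) ∧ ∃ p q : ℝ, 0 ≤ p ∧ 0 ≤ q ∧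
      δ k = p • β + q • γ := by
  obtain ⟨c, hc⟩ := rot hβ hγ
  have ht' : 2 ≤ -(bf M β γ) := by linarith
  refine ⟨fun k => geo cs (c ^ k) β, ?_, fun k => ⟨hβ.geo _, (pq (-(bf M β γ)) k).1,
    (pq (-(bf M β γ)) k).2, ?_, ?_, rot_pow hβ hγ hc k⟩⟩
  · have hmono : StrictMono (fun k => lam (-(geo cs w (geo cs (c ^ k) β)))) := by
      apply strictMono_nat_of_lt_succ
      intro k
      rw [rot_pow hβ hγ hc, rot_pow hβ hγ hc]
      simp only [map_add, map_smul, map_neg, smul_eq_mul]
      have h3 : 0 < lam (-(geo cs w β)) := lam_pos (neg_nonneg.2 h1) (by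
        intro h
        exact (hβ.geo w).ne_zero (neg_eq_zero.1 h))
      have h4 : 0 < lam (-(geo cs w γ)) := lam_pos (neg_nonneg.2 h2) (by
        intro h
        exact (hγ.geo w).ne_zero (neg_eq_zero.1 h))
      rw [map_neg] at h3 h4
      have h5 := pq_lt ht' k
      have h6 := pq_le ht' k
      nlinarith
    intro a b hab
    apply hmono.injective
    simp only at hab ⊢
    rw [hab]
  · have := pq_prop ht' k; linarith [this.1, this.2]
  · exact (pq_prop ht' k).1

/-- Two positive roots made negative by `w` have `(β, γ) > -1`. -/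
lemma neg_two_lt {β γ : B → ℝ} {w : W} (hβ : β ∈ Inv cs w) (hγ : γ ∈ Inv cs w) :
    -2 < bf M β γ := by
  by_contra hcon
  push Not at hcon
  obtain ⟨δ, hinj, hδ⟩ := inf_roots hβ.1 hγ.1 hcon hβ.2.2 hγ.2.2
  have hsub : Set.range δ ⊆ Inv cs w := by
    rintro _ ⟨k, rfl⟩
    obtain ⟨hr, p, q, hp, hq, h⟩ := hδ k
    refine ⟨hr, ?_, ?_⟩
    · rw [h]; exact add_nonneg (smul_nonneg hp hβ.2.1) (smul_nonneg hq hγ.2.1)
    · rw [h, map_add, map_smul, map_smul]
      exact add_nonpos (smul_nonpos_of_nonneg_of_nonpos hp hβ.2.2)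
        (smul_nonpos_of_nonneg_of_nonpos hq hγ.2.2)
  exact Set.infinite_range_of_injective hinj ((inv_finite w).subset hsub)

/-- If `(β, γ) ≥ 1` then one of the roots dominates the other. -/
lemma dom_of_two_le {β γ : B → ℝ} (hβ : IsRoot cs β) (hγ : IsRoot cs γ) (ht : 2 ≤ bf M β γ) :
    Dom cs β γ ∨ Dom cs γ β := by
  by_contra hcon
  push Not at hcon
  obtain ⟨h1, h2⟩ := hcon
  unfold Dom at h1 h2
  push Not at h1 h2
  obtain ⟨w, hw1, hw2⟩ := h1
  obtain ⟨v, hv1, hv2⟩ := h2
  have hw3 : 0 ≤ geo cs w γ := (hγ.geo w).nonneg_of_not hw2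
  have hv3 : 0 ≤ geo cs v β := (hβ.geo v).nonneg_of_not hv2
  obtain ⟨δ, hinj, hδ⟩ := inf_roots hβ hγ.neg (by rw [map_neg]; linarith) hw1
    (by rw [map_neg]; exact neg_nonpos.2 hw3)
  have hsub : Set.range δ ⊆ Inv cs w ∪ (fun x => -x) '' Inv cs v := by
    rintro _ ⟨k, rfl⟩
    obtain ⟨hr, p, q, hp, hq, h⟩ := hδ k
    rcases hr.sign with hs | hs
    · left
      refine ⟨hr, hs, ?_⟩
      rw [h, map_add, map_smul, map_smul, map_neg]
      exact add_nonpos (smul_nonpos_of_nonneg_of_nonpos hp hw1)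
        (smul_nonpos_of_nonneg_of_nonpos hq (neg_nonpos.2 hw3))
    · right
      refine ⟨-δ k, ⟨hr.neg, neg_nonneg.2 hs, ?_⟩, neg_neg _⟩
      rw [map_neg, h, map_add, map_smul, map_smul, map_neg]
      rw [neg_nonpos]
      exact add_nonneg (smul_nonneg hp hv3) (smul_nonneg hq (neg_nonneg.2 hv1))
  exact Set.infinite_range_of_injective hinj
    (((inv_finite w).union ((inv_finite v).image _)).subset hsub)

/-- a nonnegative sequence with `a (k+2) = τ a (k+1) - a k`, `τ < 2`, starts with zero -/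
lemma seq_zero {τ : ℝ} (hτ : τ < 2) (a : ℕ → ℝ) (ha : ∀ k, 0 ≤ a k)
    (hr : ∀ k, a (k + 2) = τ * a (k + 1) - a k) : a 0 = 0 := by
  have hd : ∀ k, a (k + 2) - a (k + 1) = (a (k + 1) - a k) - (2 - τ) * a (k + 1) := by
    intro k; rw [hr]; ring
  have hd0 : ∀ k, 0 ≤ a (k + 1) - a k := by
    intro k
    by_contra hcon
    push Not at hcon
    set e := a (k + 1) - a k with he
    have h1 : ∀ n, a (k + n + 1) - a (k + n) ≤ e := by
      intro n
      induction n with
      | zero => simp [he]
      | succ n ih =>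
        have := hd (k + n)
        have h2 : 0 ≤ (2 - τ) * a (k + n + 1) := mul_nonneg (by linarith) (ha _)
        have h3 : k + (n + 1) + 1 = k + n + 2 := by ring
        have h4 : k + (n + 1) = k + n + 1 := by ring
        rw [h3, h4]
        linarith
    have h5 : ∀ n : ℕ, a (k + n) ≤ a k + n * e := by
      intro n
      induction n with
      | zero => simp
      | succ n ih =>
        have := h1 n
        have h4 : k + (n + 1) = k + n + 1 := by ring
        rw [h4]
        push_cast
        linarith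
    obtain ⟨n, hn⟩ := exists_nat_gt (a k / (-e))
    have h6 := h5 n
    have h7 := ha (k + n)
    have h8 : a k < n * (-e) := by
      rwa [div_lt_iff₀ (by linarith)] at hn
    linarith
  have hmono : Monotone a := monotone_nat_of_le_succ fun k => by linarith [hd0 k]
  have h1 : ∀ n : ℕ, a (n + 1) - a n ≤ (a 1 - a 0) - n * ((2 - τ) * a 1) := by
    intro n
    induction n with
    | zero => simp
    | succ n ih =>
      have h2 := hd n
      have h3 : (2 - τ) * a 1 ≤ (2 - τ) * a (n + 1) :=
        mul_le_mul_of_nonneg_left (hmono (by omega)) (by linarith)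
      push_cast
      linarith
  have h2 : a 1 = 0 := by
    by_contra hne
    have hpos : 0 < a 1 := lt_of_le_of_ne (ha 1) (Ne.symm hne)
    have hpos2 : 0 < (2 - τ) * a 1 := mul_pos (by linarith) hpos
    obtain ⟨n, hn⟩ := exists_nat_gt ((a 1 - a 0) / ((2 - τ) * a 1))
    rw [div_lt_iff₀ hpos2] at hn
    have := h1 n
    have := hd0 n
    linarith
  have h3 := hd0 0
  simp only [zero_add] at h3
  linarith [ha 0]

/-- If `|(β, γ)| < 1` then the rotation `r_β r_γ` has finite order. -/
lemma rot_finite {β γ : B → ℝ} (hβ : IsRoot cs β) (hγ : IsRoot cs γ) (h1 : -2 < bf M β γ)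
    (h2 : bf M β γ < 2) {c : W}
    (hc : ∀ v, geo cs c v = v - bf M γ v • γ - bf M β (v - bf M γ v • γ) • β) :
    ∃ k, 0 < k ∧ c ^ k = 1 := by
  by_contra hcon
  push Not at hcon
  set t := bf M β γ with ht
  have hβc := rot_left hβ hc
  have hγc := rot_right hγ hc
  rw [← ht] at hβc hγc
  -- no power fixes β
  have hfix : ∀ m, 0 < m → geo cs (c ^ m) β ≠ β := by
    intro m hm hβm
    have hγm : geo cs (c ^ m) γ = γ ∨ t = 0 := by
      by_cases ht0 : t = 0
      · exact Or.inr ht0
      left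
      have e1 : geo cs (c ^ m) (geo cs c β) = geo cs c β := by
        rw [← Module.End.mul_apply, ← map_mul, ← pow_succ, pow_succ', map_mul,
          Module.End.mul_apply, hβm]
      rw [hβc, map_sub, map_smul, map_smul, hβm] at e1
      have e2 : t • geo cs (c ^ m) γ = t • γ := by
        have := sub_right_injective e1
        exact this
      exact smul_right_injective _ ht0 e2
    rcases hγm with hγm | ht0
    · -- `c ^ m` fixes everything
      apply hcon m hm
      apply geo_injective cs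
      rw [map_one]
      apply LinearMap.ext
      intro v
      rw [Module.End.one_apply]
      have hspan : ∀ k v, ∃ a b : ℝ, geo cs (c ^ k) v = v + a • β + b • γ := by
        intro k
        induction k with
        | zero => intro v; exact ⟨0, 0, by simp⟩
        | succ k ih =>
          intro v
          obtain ⟨a, b, hab⟩ := ih v
          rw [pow_succ', map_mul, Module.End.mul_apply, hab, map_add, map_add, map_smul, map_smul,
            hβc, hγc, hc v]
          refine ⟨-bf M β (v - bf M γ v • γ) + a * (t ^ 2 - 1) + b * t,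
            -bf M γ v - a * t - b, ?_⟩
          module
      obtain ⟨a, b, hab⟩ := hspan m v
      have e1 : bf M (geo cs (c ^ m) v) β = bf M v β := by
        conv_lhs => rw [← hβm]
        rw [bf_geo]
      have e2 : bf M (geo cs (c ^ m) v) γ = bf M v γ := by
        conv_lhs => rw [← hγm]
        rw [bf_geo]
      rw [hab] at e1 e2
      simp only [map_add, LinearMap.add_apply, map_smul, LinearMap.smul_apply, smul_eq_mul,
        hβ.bf_self, hγ.bf_self, bf_symm γ β] at e1 e2
      rw [← ht] at e1 e2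
      have e3 : a * 2 + b * t = 0 := by linarith
      have e4 : a * t + b * 2 = 0 := by linarith
      have e5 : a * (4 - t ^ 2) = 0 := by
        have : a * (4 - t ^ 2) = 2 * (a * 2 + b * t) - t * (a * t + b * 2) := by ring
        rw [this, e3, e4]; ring
      have e6 : (4 - t ^ 2) ≠ 0 := by nlinarith
      have e7 : a = 0 := by
        rcases mul_eq_zero.1 e5 with h | h
        · exact h
        · exact absurd h e6
      have e8 : b = 0 := by rw [e7] at e4; linarith
      rw [hab, e7, e8]
      simp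
    · -- `t = 0`: `c ^ 2 = 1`
      apply hcon 2 (by norm_num)
      apply geo_injective cs
      rw [map_one]
      apply LinearMap.ext
      intro v
      have e : bf M γ β = 0 := by rw [bf_symm, ← ht, ht0]
      have e' : bf M β γ = 0 := by rw [← ht, ht0]
      rw [Module.End.one_apply, pow_two, map_mul, Module.End.mul_apply, hc, hc v]
      simp only [map_sub, map_smul, smul_eq_mul, hβ.bf_self, hγ.bf_self, e, e']
      module
  have hinj : Function.Injective (fun k => geo cs (c ^ k) β) := by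
    have key : ∀ k l : ℕ, k < l → geo cs (c ^ k) β ≠ geo cs (c ^ l) β := by
      intro k l hkl he
      obtain ⟨m, hm, rfl⟩ : ∃ m, 0 < m ∧ l = k + m := ⟨l - k, by omega, by omega⟩
      rw [pow_add, map_mul, Module.End.mul_apply] at he
      exact hfix m hm (geo_injective_apply cs _ he).symm
    intro k l he
    rcases lt_trichotomy k l with h | h | h
    · exact absurd he (key k l h)
    · exact h
    · exact absurd he.symm (key l k h)
  -- only finitely many sign changes
  have hfin : {k : ℕ | ¬ ((0 ≤ geo cs (c ^ k) β ∧ 0 ≤ geo cs (c ^ (k + 1)) β) ∨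
      (geo cs (c ^ k) β ≤ 0 ∧ geo cs (c ^ (k + 1)) β ≤ 0))}.Finite := by
    have h3 : ((Inv cs c ∪ (fun x => -x) '' Inv cs c)).Finite :=
      (inv_finite c).union ((inv_finite c).image _)
    refine (h3.preimage (f := fun k => geo cs (c ^ k) β) hinj.injOn).subset ?_
    intro k hk
    have hk' : ¬ ((0 ≤ geo cs (c ^ k) β ∧ 0 ≤ geo cs (c ^ (k + 1)) β) ∨
      (geo cs (c ^ k) β ≤ 0 ∧ geo cs (c ^ (k + 1)) β ≤ 0)) := hk
    have hs1 := (hβ.geo (c ^ k)).sign
    have hs2 := (hβ.geo (c ^ (k + 1))).sign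
    have e : geo cs c (geo cs (c ^ k) β) = geo cs (c ^ (k + 1)) β := by
      rw [pow_succ', map_mul, Module.End.mul_apply]
    rcases hs1 with hs1 | hs1
    · left
      refine ⟨hβ.geo _, hs1, ?_⟩
      rw [e]
      rcases hs2 with hs2 | hs2
      · exact absurd (Or.inl ⟨hs1, hs2⟩) hk'
      · exact hs2
    · right
      refine ⟨-geo cs (c ^ k) β, ⟨(hβ.geo _).neg, neg_nonneg.2 hs1, ?_⟩, neg_neg _⟩
      rw [map_neg, e]
      rcases hs2 with hs2 | hs2
      · exact neg_nonpos.2 hs2
      · exact absurd (Or.inr ⟨hs1, hs2⟩) hk'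
  obtain ⟨K, hK⟩ := hfin.bddAbove
  have hK' : ∀ k, K < k → ((0 ≤ geo cs (c ^ k) β ∧ 0 ≤ geo cs (c ^ (k + 1)) β) ∨
      (geo cs (c ^ k) β ≤ 0 ∧ geo cs (c ^ (k + 1)) β ≤ 0)) := by
    intro k hk
    by_contra h
    exact absurd (hK h) (by simpa using hk)
  have hrec : ∀ k, geo cs (c ^ (k + 2)) β = (t ^ 2 - 2) • geo cs (c ^ (k + 1)) β -
      geo cs (c ^ k) β := by
    intro k
    have e : geo cs (c ^ 2) β = (t ^ 2 - 2) • geo cs c β - β := by
      rw [pow_two, map_mul, Module.End.mul_apply, hβc, map_sub, map_smul, map_smul, hβc, hγc]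
      module
    have e3 : geo cs (c ^ (k + 1)) β = geo cs (c ^ k) (geo cs c β) := by
      rw [pow_succ c k, map_mul, Module.End.mul_apply]
    rw [e3, pow_add, map_mul, Module.End.mul_apply, e, map_sub, map_smul]
  have hlt : t ^ 2 - 2 < 2 := by nlinarith
  rcases (hβ.geo (c ^ (K + 1))).sign with hs | hs
  · have hall : ∀ n, 0 ≤ geo cs (c ^ (K + 1 + n)) β := by
      intro n
      induction n with
      | zero => exact hs
      | succ n ih =>
        rcases hK' (K + 1 + n) (by omega) with h | h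
        · exact h.2
        · exact absurd h.1 ((hβ.geo _).not_nonpos ih)
    apply (hβ.geo (c ^ (K + 1))).ne_zero
    funext j
    exact seq_zero hlt (fun n => geo cs (c ^ (K + 1 + n)) β j) (fun n => hall n j) (fun n => by
      have := congrFun (hrec (K + 1 + n)) j
      simp only [Pi.sub_apply, Pi.smul_apply, smul_eq_mul] at this
      have e1 : K + 1 + (n + 2) = K + 1 + n + 2 := by ring
      have e2 : K + 1 + (n + 1) = K + 1 + n + 1 := by ring
      simp only [e1, e2]
      exact this)
  · have hall : ∀ n, geo cs (c ^ (K + 1 + n)) β ≤ 0 := by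
      intro n
      induction n with
      | zero => exact hs
      | succ n ih =>
        rcases hK' (K + 1 + n) (by omega) with h | h
        · exact absurd ih ((hβ.geo _).not_nonpos h.1)
        · exact h.2
    apply (hβ.geo (c ^ (K + 1))).ne_zero
    funext j
    have := seq_zero hlt (fun n => -(geo cs (c ^ (K + 1 + n)) β j))
      (fun n => neg_nonneg.2 (hall n j)) (fun n => by
      have := congrFun (hrec (K + 1 + n)) j
      simp only [Pi.sub_apply, Pi.smul_apply, smul_eq_mul] at this
      have e1 : K + 1 + (n + 2) = K + 1 + n + 2 := by ring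
      have e2 : K + 1 + (n + 1) = K + 1 + n + 1 := by ring
      simp only [e1, e2]
      rw [this]
      ring)
    simpa using this

end Pool.Agent.TH5.BD
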