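import Mathlib

set_option autoImplicit false

/-!
# Minkowski's lemma: an automorphism of finite order that is trivial modulo 3 is trivial
-/

namespace Pool.Agent.TH5.BD

variable {L : Type*} [AddCommGroup L]

/-- divisibility of all values by `3 ^ j` -/
def DivBy (A : Module.End ℤ L) (j : ℕ) : Prop := ∀ v, ∃ u, A v = (3 ^ j : ℤ) • u

lemma DivBy.mul {A A' : Module.End ℤ L} {j k : ℕ} (h : DivBy A j) (h' : DivBy A' k) :
    DivBy (A * A') (j + k) := by
  intro v
  obtain ⟨u, hu⟩ := h' v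
  obtain ⟨u', hu'⟩ := h u
  refine ⟨u', ?_⟩
  rw [Module.End.mul_apply, hu, map_smul, hu', smul_smul]
  congr 1
  ring

lemma DivBy.mono {A : Module.End ℤ L} {j k : ℕ} (h : DivBy A j) (hk : k ≤ j) : DivBy A k := by
  intro v
  obtain ⟨u, hu⟩ := h v
  refine ⟨(3 ^ (j - k) : ℤ) • u, ?_⟩
  rw [hu, smul_smul, ← pow_add]
  congr 2
  omega

lemma DivBy.add {A A' : Module.End ℤ L} {j : ℕ} (h : DivBy A j) (h' : DivBy A' j) :
    DivBy (A + A') j := by
  intro v
  obtain ⟨u, hu⟩ := h v
  obtain ⟨u', hu'⟩ := h' v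
  exact ⟨u + u', by rw [LinearMap.add_apply, hu, hu', smul_add]⟩

lemma DivBy.smul {A : Module.End ℤ L} {j : ℕ} (h : DivBy A j) (c : ℤ) : DivBy (c • A) j := by
  intro v
  obtain ⟨u, hu⟩ := h v
  exact ⟨c • u, by rw [LinearMap.smul_apply, hu, smul_comm]⟩

lemma DivBy.neg {A : Module.End ℤ L} {j : ℕ} (h : DivBy A j) : DivBy (-A) j := by
  intro v
  obtain ⟨u, hu⟩ := h v
  exact ⟨-u, by rw [LinearMap.neg_apply, hu, smul_neg]⟩

lemma divBy_zero (j : ℕ) : DivBy (0 : Module.End ℤ L) j := fun _ => ⟨0, by simp⟩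

lemma DivBy.sum {ι : Type*} (s : Finset ι) {A : ι → Module.End ℤ L} {j : ℕ}
    (h : ∀ i ∈ s, DivBy (A i) j) : DivBy (∑ i ∈ s, A i) j := by
  classical
  induction s using Finset.induction_on with
  | empty => simpa using divBy_zero j
  | insert a s ha ih =>
    rw [Finset.sum_insert ha]
    exact (h a (Finset.mem_insert_self a s)).add
      (ih fun i hi => h i (Finset.mem_insert_of_mem hi))

lemma DivBy.pow {A : Module.End ℤ L} {j : ℕ} (h : DivBy A j) (n : ℕ) : DivBy (A ^ n) (n * j) := by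
  induction n with
  | zero => intro v; exact ⟨v, by simp⟩
  | succ n ih =>
    rw [pow_succ]
    have := ih.mul h
    convert this using 1
    ring

/-- the step of the descent: `A` divisible by `3 ^ j`, `j ≥ 1`, implies divisible by
`3 ^ (j + 1)` -/
lemma step (htf : ∀ a : L, (3 : ℤ) • a = 0 → a = 0) {p : ℕ} (hp : p.Prime)
    {A : Module.End ℤ L} (h : (A + 1) ^ p = 1) {j : ℕ} (hj : 1 ≤ j) (hA : DivBy A j) :
    DivBy A (j + 1) := by
  have hp2 : 2 ≤ p := hp.two_le
  obtain ⟨n, rfl⟩ : ∃ n, p = n + 2 := ⟨p - 2, by omega⟩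
  have hexp : (n + 2 : ℤ) • A + ∑ m ∈ Finset.range (n + 1),
      ((n + 2).choose (m + 2) : ℤ) • A ^ (m + 2) = 0 := by
    have h1 := (Commute.one_right A).add_pow (n + 2)
    rw [h, Finset.sum_range_succ', Finset.sum_range_succ'] at h1
    simp only [pow_zero, one_pow, mul_one, Nat.choose_zero_right, Nat.cast_one, zero_add, pow_one,
      Nat.choose_one_right, one_mul] at h1
    have h2 : (∑ m ∈ Finset.range (n + 1), A ^ (m + 1 + 1) * (((n + 2).choose (m + 1 + 1) : ℕ) :
        Module.End ℤ L)) + A * ((n + 2 : ℕ) : Module.End ℤ L) = 0 := by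
      have h3 := h1
      nth_rewrite 1 [← zero_add (1 : Module.End ℤ L)] at h3
      exact (add_right_cancel h3).symm
    rw [← h2, add_comm]
    congr 1
    · refine Finset.sum_congr rfl fun m _ => ?_
      rw [← (Nat.cast_commute ((n + 2).choose (m + 1 + 1)) (A ^ (m + 1 + 1))).eq, zsmul_eq_mul]
      push_cast
      rfl
    · rw [← (Nat.cast_commute (n + 2) A).eq, zsmul_eq_mul]
      push_cast
      rfl
  have hA' : ∀ m : ℕ, DivBy (A ^ (m + 2)) (2 * j) := fun m =>
    (hA.pow (m + 2)).mono (by nlinarith)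
  by_cases h3 : n + 2 = 3
  · -- p = 3
    have hn : n = 1 := by omega
    subst hn
    have h4 : (3 : ℤ) • A = -((3 : ℤ) • A ^ 2 + A ^ 3) := by
      have h5 := hexp
      rw [Finset.sum_range_succ, Finset.sum_range_one] at h5
      norm_num [Nat.choose] at h5
      have h6 : (3 : ℤ) • A = - (3 * A ^ 2 + A ^ 3) := by
        rw [zsmul_eq_mul]
        push_cast
        exact eq_neg_of_add_eq_zero_left h5
      rw [h6, zsmul_eq_mul]
      push_cast
      rfl
    have h5 : DivBy ((3 : ℤ) • A ^ 2) (j + 2) := by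
      intro v
      obtain ⟨u, hu⟩ := hA.pow 2 v
      refine ⟨(3 ^ (j - 1) : ℤ) • u, ?_⟩
      rw [LinearMap.smul_apply, hu, smul_smul, smul_smul]
      congr 1
      have : 2 * j + 1 = (j + 2) + (j - 1) := by omega
      rw [← pow_add, ← this, pow_succ]
      ring
    have h6 : DivBy (A ^ 3) (j + 2) := (hA.pow 3).mono (by omega)
    have h7 : DivBy ((3 : ℤ) • A) (j + 2) := by
      rw [h4]
      exact (h5.add h6).neg
    intro v
    obtain ⟨u, hu⟩ := h7 v
    refine ⟨u, ?_⟩
    have h8 : (3 : ℤ) • (A v - (3 ^ (j + 1) : ℤ) • u) = 0 := by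
      rw [smul_sub, smul_smul, ← LinearMap.smul_apply, hu, sub_eq_zero]
      congr 1
      ring
    exact sub_eq_zero.1 (htf _ h8)
  · -- p ≠ 3
    have hcop : IsCoprime ((n + 2 : ℕ) : ℤ) ((3 : ℤ) ^ (j + 1)) := by
      apply IsCoprime.pow_right
      have : Nat.Coprime (n + 2) 3 := (Nat.coprime_primes hp Nat.prime_three).2 h3
      exact_mod_cast Nat.isCoprime_iff_coprime.2 this
    obtain ⟨a, b, hab⟩ := hcop
    have h4 : DivBy ((n + 2 : ℤ) • A) (j + 1) := by
      have h5 : (n + 2 : ℤ) • A = - ∑ m ∈ Finset.range (n + 1),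
          ((n + 2).choose (m + 2) : ℤ) • A ^ (m + 2) := eq_neg_of_add_eq_zero_left hexp
      rw [h5]
      apply DivBy.neg
      apply DivBy.sum
      intro m _
      exact ((hA' m).mono (by omega)).smul _
    intro v
    obtain ⟨u, hu⟩ := h4 v
    refine ⟨a • u + b • A v, ?_⟩
    have h6 : (((n + 2 : ℕ) : ℤ)) • A v = (3 ^ (j + 1) : ℤ) • u := by
      rw [← hu, LinearMap.smul_apply]
      push_cast
      rfl
    calc A v = (a * ((n + 2 : ℕ) : ℤ) + b * 3 ^ (j + 1)) • A v := by rw [hab, one_smul]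
      _ = a • (((n + 2 : ℕ) : ℤ) • A v) + b • ((3 ^ (j + 1) : ℤ) • A v) := by
        rw [add_smul, mul_smul, mul_smul]
      _ = (3 ^ (j + 1) : ℤ) • (a • u + b • A v) := by
        rw [h6, smul_add, smul_comm a, smul_comm b]

/-- **Minkowski.** -/
theorem minkowski (htf : ∀ a : L, (3 : ℤ) • a = 0 → a = 0)
    (hsep : ∀ a : L, (∀ j : ℕ, ∃ b, a = (3 ^ j : ℤ) • b) → a = 0) {k : ℕ} (hk : 0 < k)
    {g : Module.End ℤ L} (hg : DivBy (g - 1) 1) (hgk : g ^ k = 1) : g = 1 := by
  induction k using Nat.strong_induction_on generalizing g with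
  | _ k ih =>
  by_cases hk1 : k = 1
  · subst hk1; simpa using hgk
  obtain ⟨p, hp, m, rfl⟩ : ∃ p, p.Prime ∧ ∃ m, k = p * m := by
    obtain ⟨p, hp, h⟩ := Nat.exists_prime_and_dvd hk1
    exact ⟨p, hp, h⟩
  -- the `p`-th power is trivial
  have hm : 0 < m := Nat.pos_of_mul_pos_left hk
  have hmlt : m < p * m := by nlinarith [hp.two_le]
  have hgp : g ^ p = 1 := by
    apply ih m hmlt hm _ (by rw [← pow_mul]; exact hgk)
    have h1 : ∀ n : ℕ, DivBy (g ^ n - 1) 1 := by
      intro n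
      induction n with
      | zero => simpa using divBy_zero 1
      | succ n ihn =>
        have h2 : g ^ (n + 1) - 1 = (g ^ n - 1) * (g - 1) + ((g ^ n - 1) + (g - 1)) := by
          rw [pow_succ]; noncomm_ring
        rw [h2]
        exact ((ihn.mul hg).mono (by norm_num)).add (ihn.add hg)
    exact h1 p
  have hall : ∀ j : ℕ, DivBy (g - 1) (j + 1) := by
    intro j
    induction j with
    | zero => exact hg
    | succ j ihj => exact step htf hp (by rw [sub_add_cancel]; exact hgp) (by omega) ihj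
  have h0 : g - 1 = 0 := by
    apply LinearMap.ext
    intro v
    rw [LinearMap.zero_apply]
    apply hsep
    intro j
    exact ((hall j).mono (by omega)) v
  exact sub_eq_zero.1 h0

end Pool.Agent.TH5.BD
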