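import Mathlib
import Pool.Agent.TH5.BD.Dihedral
import Pool.Agent.TH5.BD.Mink

set_option autoImplicit false
set_option linter.unusedSectionVars false

/-!
# The lattice of the geometric representation and a bound for antichains of roots
-/

namespace Pool.Agent.TH5.BD

open CoxeterSystem Pool.Agent.Helper703.Cox

variable {B : Type*} (M : CoxeterMatrix B) [Fintype B] [DecidableEq B]

/-- the ring generated by the numbers `2 cos (π / m)` -/
noncomputable def OO : Subalgebra ℤ ℝ :=
  Algebra.adjoin ℤ (Set.range fun p : B × B => 2 * cc M p.1 p.2)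

lemma cc_mem (i j : B) : 2 * cc M i j ∈ OO M := Algebra.subset_adjoin ⟨(i, j), rfl⟩

lemma cc_integral (i j : B) : IsIntegral ℤ (2 * cc M i j) := by
  have h := Real.isIntegral_two_mul_cos_rat_mul_pi (1 / (M i j : ℚ))
  have h1 : ((1 / (M i j : ℚ) : ℚ) : ℝ) * Real.pi = Real.pi / (M i j : ℝ) := by
    push_cast; ring
  rw [h1] at h
  exact h

lemma OO_fg : (Subalgebra.toSubmodule (OO M)).FG := by
  apply fg_adjoin_of_finite (Set.finite_range _)
  rintro _ ⟨p, rfl⟩
  exact cc_integral M p.1 p.2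

instance : Module.Finite ℤ (OO M) := by
  have h := OO_fg M
  exact Module.Finite.iff_fg.2 h

instance : Module.Free ℤ (OO M) := inferInstance

/-- elements of `OO` divisible by all powers of `3` vanish -/
lemma OO_sep (a : ℝ) (ha : a ∈ OO M) (h : ∀ j : ℕ, ∃ b ∈ OO M, a = 3 ^ j * b) : a = 0 := by
  have hb := Module.Free.chooseBasis ℤ (OO M)
  set b := Module.Free.chooseBasis ℤ (OO M) with hbdef
  have h1 : (⟨a, ha⟩ : OO M) = 0 := by
    apply b.repr.injective
    rw [map_zero]
    ext i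
    rw [Finsupp.zero_apply]
    by_contra hne
    have h2 : ∀ j : ℕ, (3 ^ j : ℤ) ∣ b.repr ⟨a, ha⟩ i := by
      intro j
      obtain ⟨c, hc, hac⟩ := h j
      have h3 : (⟨a, ha⟩ : OO M) = (3 ^ j : ℤ) • (⟨c, hc⟩ : OO M) := by
        apply Subtype.ext
        simpa using hac
      rw [h3, map_smul, Finsupp.smul_apply, smul_eq_mul]
      exact dvd_mul_right _ _
    have h3 := h2 ((b.repr ⟨a, ha⟩ i).natAbs)
    have h4 := Int.le_of_dvd (Int.natAbs_pos.2 hne |> fun h => by exact_mod_cast h)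
      ((Int.dvd_natAbs).2 h3)
    have h5 : (b.repr ⟨a, ha⟩ i).natAbs < 3 ^ (b.repr ⟨a, ha⟩ i).natAbs := Nat.lt_pow_self (by norm_num)
    have h6 : ((3 ^ (b.repr ⟨a, ha⟩ i).natAbs : ℕ) : ℤ) ≤ ((b.repr ⟨a, ha⟩ i).natAbs : ℤ) := by
      rw [Nat.cast_pow]
      exact h4
    have h7 : 3 ^ (b.repr ⟨a, ha⟩ i).natAbs ≤ (b.repr ⟨a, ha⟩ i).natAbs := by exact_mod_cast h6
    omega
  exact congrArg Subtype.val h1

/-- vectors with coordinates in `OO` -/
noncomputable def Lam : Submodule ℤ (B → ℝ) where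
  carrier := {v | ∀ j, v j ∈ OO M}
  add_mem' := fun h h' j => (OO M).add_mem (h j) (h' j)
  zero_mem' := fun _ => (OO M).zero_mem
  smul_mem' := fun c v h j => by
    rw [Pi.smul_apply]
    exact (OO M).smul_mem (h j) c

variable {M}

lemma coroot_mem (i : B) {v : B → ℝ} (hv : v ∈ Lam M) : coroot M i v ∈ OO M := by
  rw [coroot_apply]
  apply (OO M).sum_mem
  intro j _
  have : -2 * cc M i j * v j = -(2 * cc M i j * v j) := by ring
  rw [this]
  exact (OO M).neg_mem ((OO M).mul_mem (cc_mem M i j) (hv j))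

lemma smul_mem' {a : ℝ} (ha : a ∈ OO M) {v : B → ℝ} (hv : v ∈ Lam M) : a • v ∈ Lam M :=
  fun j => (OO M).mul_mem ha (hv j)

lemma bf_mem {u v : B → ℝ} (hu : u ∈ Lam M) (hv : v ∈ Lam M) : bf M u v ∈ OO M := by
  rw [bf_apply]
  exact (OO M).sum_mem fun i _ => (OO M).mul_mem (hu i) (coroot_mem i hv)

lemma ee_mem (i : B) : (ee i : B → ℝ) ∈ Lam M := by
  intro j
  simp only [ee, Pi.single_apply]
  split_ifs
  · exact (OO M).one_mem
  · exact (OO M).zero_mem

lemma sg_mem (i : B) {v : B → ℝ} (hv : v ∈ Lam M) : sg M i v ∈ Lam M := by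
  rw [sg_apply]
  exact (Lam M).sub_mem hv (smul_mem' (coroot_mem i hv) (ee_mem i))

variable {W : Type*} [Group W] {cs : CoxeterSystem M W}

lemma geo_mem (w : W) {v : B → ℝ} (hv : v ∈ Lam M) : geo cs w v ∈ Lam M := by
  obtain ⟨ω, rfl⟩ := cs.wordProd_surjective w
  rw [geo_wordProd]
  induction ω with
  | nil => simpa using hv
  | cons i ω ih =>
    rw [List.map_cons, List.prod_cons, Module.End.mul_apply]
    exact sg_mem i ih

lemma IsRoot.mem {β : B → ℝ} (h : IsRoot cs β) : β ∈ Lam M := by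
  obtain ⟨w, i, rfl⟩ := h
  exact geo_mem w (ee_mem i)

variable (cs) in
/-- the action on the lattice -/
noncomputable def gl (w : W) : Module.End ℤ (Lam M) :=
  ((geo cs w).restrictScalars ℤ).restrict (fun _ hv => geo_mem w hv)

@[simp] lemma gl_apply (w : W) (v : Lam M) : ((gl cs w v : Lam M) : B → ℝ) = geo cs w v := rfl

lemma gl_mul (w w' : W) : gl cs (w * w') = gl cs w * gl cs w' := by
  apply LinearMap.ext
  intro v
  apply Subtype.ext
  rw [gl_apply, map_mul, Module.End.mul_apply, Module.End.mul_apply, gl_apply, gl_apply]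

lemma gl_one : gl cs (1 : W) = 1 := by
  apply LinearMap.ext
  intro v
  apply Subtype.ext
  rw [gl_apply, map_one, Module.End.one_apply, Module.End.one_apply]

lemma gl_pow (w : W) (k : ℕ) : gl cs (w ^ k) = (gl cs w) ^ k := by
  induction k with
  | zero => rw [pow_zero, pow_zero, gl_one]
  | succ k ih => rw [pow_succ, pow_succ, gl_mul, ih]

/-- elements of finite order that are trivial modulo 3 are trivial -/
lemma eq_one_of_mod_three {w : W} {k : ℕ} (hk : 0 < k) (hwk : w ^ k = 1)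
    (h : ∀ v ∈ Lam M, ∃ u ∈ Lam M, geo cs w v = v + (3 : ℝ) • u) : w = 1 := by
  have h1 : gl cs w = 1 := by
    refine minkowski (L := Lam M) ?_ ?_ hk ?_ (by rw [← gl_pow, hwk, gl_one])
    · intro a ha
      apply Subtype.ext
      have h2 : (3 : ℤ) • (a : B → ℝ) = 0 := congrArg Subtype.val ha
      funext j
      have h3 := congrFun h2 j
      simpa using h3
    · intro a ha
      apply Subtype.ext
      funext j
      apply OO_sep M _ (a.2 j)
      intro n
      obtain ⟨b, hb⟩ := ha n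
      refine ⟨(b : B → ℝ) j, b.2 j, ?_⟩
      have h3 := congrFun (congrArg Subtype.val hb) j
      simpa using h3
    · intro v
      obtain ⟨u, hu, huv⟩ := h v v.2
      refine ⟨⟨u, hu⟩, ?_⟩
      apply Subtype.ext
      funext j
      have h3 := congrFun huv j
      simp only [Pi.add_apply, Pi.smul_apply, smul_eq_mul] at h3
      simp [LinearMap.sub_apply, h3]
  apply eq_one_of_geo cs
  intro i
  have h2 := congrArg (fun g : Module.End ℤ (Lam M) => ((g ⟨ee i, ee_mem i⟩ : Lam M) : B → ℝ)) h1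
  simp only [gl_apply, Module.End.one_apply] at h2
  rw [h2]
  exact ee_nonneg i

/-- The reflections in two roots that agree modulo 3 agree modulo 3. -/
lemma rot_mod_three {β γ : B → ℝ} (hβ : IsRoot cs β) (hγ : IsRoot cs γ) {η : B → ℝ}
    (hη : η ∈ Lam M) (h : β = γ + (3 : ℝ) • η) {c : W}
    (hc : ∀ v, geo cs c v = v - bf M γ v • γ - bf M β (v - bf M γ v • γ) • β) :
    ∀ v ∈ Lam M, ∃ u ∈ Lam M, geo cs c v = v + (3 : ℝ) • u := by
  intro v hv
  -- `c v - v = r_β (r_γ v - r_β v)`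
  refine ⟨(bf M η v • β + bf M γ v • η) - bf M β (bf M η v • β + bf M γ v • η) • β, ?_, ?_⟩
  · have h1 : bf M η v • β + bf M γ v • η ∈ Lam M :=
      (Lam M).add_mem (smul_mem' (bf_mem hη hv) hβ.mem) (smul_mem' (bf_mem hγ.mem hv) hη)
    exact (Lam M).sub_mem h1 (smul_mem' (bf_mem hβ.mem h1) hβ.mem)
  · rw [hc]
    have e1 : bf M β v = bf M γ v + 3 * bf M η v := by
      rw [h]; simp
    have e2 : (3 : ℝ) • η = β - γ := by rw [h]; abel
    have e3 : (3 : ℝ) * bf M β η = 2 - bf M β γ := by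
      have : bf M β ((3 : ℝ) • η) = bf M β β - bf M β γ := by rw [e2, map_sub]
      rw [map_smul, smul_eq_mul, hβ.bf_self] at this
      exact this
    have e4 : bf M β (bf M η v • β + bf M γ v • η) = 2 * bf M η v + bf M γ v * bf M β η := by
      rw [map_add, map_smul, map_smul, hβ.bf_self]; simp only [smul_eq_mul]; ring
    have e5 : bf M β (v - bf M γ v • γ) = bf M β v - bf M γ v * bf M β γ := by
      rw [map_sub, map_smul]; rfl
    rw [e4, e5, smul_sub, smul_add, smul_comm (3 : ℝ) (bf M γ v) η, e2, e1]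
    have e6 : (3 : ℝ) • ((2 * bf M η v + bf M γ v * bf M β η) • β) =
        (6 * bf M η v + bf M γ v * (2 - bf M β γ)) • β := by
      rw [smul_smul, ← e3]; congr 1; ring
    rw [e6]
    module

/-- **Bound for antichains.** -/
theorem anti_bound (cs : CoxeterSystem M W) : ∃ C : ℕ, ∀ (x : W) (F : Finset (B → ℝ)),
    (∀ β ∈ F, β ∈ Inv cs x) → Anti cs F → F.card ≤ C := by
  classical
  set b := Module.Free.chooseBasis ℤ (OO M) with hbdef
  set ι := Module.Free.ChooseBasisIndex ℤ (OO M) with hι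
  -- the colour of a vector
  let col : (B → ℝ) → (B → ι → ZMod 3) := fun v j k =>
    if h : v j ∈ OO M then ((b.repr ⟨v j, h⟩ k : ℤ) : ZMod 3) else 0
  have hcol : ∀ u v : B → ℝ, u ∈ Lam M → v ∈ Lam M → col u = col v →
      ∃ η ∈ Lam M, u = v + (3 : ℝ) • η := by
    intro u v hu hv h
    have h1 : ∀ j, ∃ a ∈ OO M, u j = v j + 3 * a := by
      intro j
      have h2 : ∀ k, (3 : ℤ) ∣ b.repr ⟨u j, hu j⟩ k - b.repr ⟨v j, hv j⟩ k := by
        intro k
        have h3 := congrFun (congrFun h j) k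
        simp only [col, dif_pos (hu j), dif_pos (hv j)] at h3
        rw [← Int.modEq_iff_dvd]
        have := (ZMod.intCast_eq_intCast_iff _ _ 3).1 h3
        exact this.symm
      choose m hm using h2
      refine ⟨((∑ k, m k • b k : OO M) : ℝ), (∑ k, m k • b k : OO M).2, ?_⟩
      have h4 : (⟨u j, hu j⟩ : OO M) = ⟨v j, hv j⟩ + (3 : ℤ) • ∑ k, m k • b k := by
        apply b.repr.injective
        ext k
        rw [map_add, map_smul, Finsupp.add_apply, Finsupp.smul_apply, b.repr_sum_self,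
          smul_eq_mul, ← hm k]
        ring
      have h5 := congrArg Subtype.val h4
      simp only [Subalgebra.coe_add, SetLike.val_smul] at h5
      rw [h5]
      simp
    choose a ha hua using h1
    exact ⟨a, ha, by funext j; rw [hua j]; simp⟩
  refine ⟨Fintype.card (B → ι → ZMod 3), fun x F hF hA => ?_⟩
  apply Finset.card_le_card_of_injOn col (fun _ _ => Finset.mem_univ _)
  intro β hβ γ hγ hbg
  by_contra hne
  have hβI := hF β hβ
  have hγI := hF γ hγ
  obtain ⟨η, hη, h⟩ := hcol β γ hβI.1.mem hγI.1.mem hbg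
  have h1 : -2 < bf M β γ := neg_two_lt hβI hγI
  by_cases h2 : 2 ≤ bf M β γ
  · rcases dom_of_two_le hβI.1 hγI.1 h2 with h3 | h3
    · exact hA β hβ γ hγ hne h3
    · exact hA γ hγ β hβ (Ne.symm hne) h3
  push Not at h2
  obtain ⟨c, hc⟩ := rot hβI.1 hγI.1
  obtain ⟨k, hk, hck⟩ := rot_finite hβI.1 hγI.1 h1 h2 hc
  have hc1 : c = 1 := eq_one_of_mod_three hk hck (rot_mod_three hβI.1 hγI.1 hη h hc)
  have h3 := rot_right hγI.1 hc
  rw [hc1, map_one, Module.End.one_apply] at h3
  have h4 : (2 : ℝ) • γ = (bf M β γ) • β := by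
    rw [two_smul]
    nth_rewrite 1 [h3]
    abel
  have h5 : bf M ((2 : ℝ) • γ) ((2 : ℝ) • γ) = bf M ((bf M β γ) • β) ((bf M β γ) • β) := by
    rw [h4]
  simp only [map_smul, LinearMap.smul_apply, smul_eq_mul, hβI.1.bf_self, hγI.1.bf_self] at h5
  nlinarith

end Pool.Agent.TH5.BD
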