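import Mathlib
import Pool.Agent.TH5.BD.Geo

set_option autoImplicit false
set_option linter.unusedSectionVars false

/-!
# The switching lemma

`Nn cs x y` is the set of positive roots made negative by `x` and by `y⁻¹`.  If `x s < x` and
`y = s y₁ > y₁`, then an antichain (for dominance) of `Nn cs x y₁` with `k` elements gives an
antichain of `Nn cs x y` with `k + 1` elements.
-/

namespace Pool.Agent.TH5.BD

open CoxeterSystem Pool.Agent.Helper703.Cox

variable {B : Type*} {M : CoxeterMatrix B} [Fintype B] [DecidableEq B]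
variable {W : Type*} [Group W] (cs : CoxeterSystem M W)

/-- common inversions of `x` (on the right) and `y` (on the left) -/
def Nn (x y : W) : Set (B → ℝ) :=
  {β | IsRoot cs β ∧ 0 ≤ β ∧ geo cs x β ≤ 0 ∧ geo cs y⁻¹ β ≤ 0}

/-- the roots of `F` that have to be switched -/
def Sw (F : Finset (B → ℝ)) (i : B) (β : B → ℝ) : Prop :=
  (coroot M i β < 0 ∧ ¬ ∃ p ∈ F, 0 < coroot M i p ∧ Dom cs p (sg M i β)) ∨
  (0 < coroot M i β ∧ ∃ m ∈ F, coroot M i m < 0 ∧ Dom cs (sg M i m) β ∧ ¬ Dom cs β (sg M i m))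

open Classical in
/-- the switching map -/
noncomputable def sigma (F : Finset (B → ℝ)) (i : B) (β : B → ℝ) : B → ℝ :=
  if Sw cs F i β then sg M i β else β

variable {cs}

lemma coroot_sg (i : B) (β : B → ℝ) : coroot M i (sg M i β) = - coroot M i β := by
  rw [sg_apply, map_sub, map_smul, coroot_ee, cc_self]
  simp only [smul_eq_mul]
  ring

lemma sg_of_coroot_eq_zero {i : B} {β : B → ℝ} (h : coroot M i β = 0) : sg M i β = β := by
  rw [sg_apply, h, zero_smul, sub_zero]

/-- mixed pairs are incomparable -/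
lemma mixed {F : Finset (B → ℝ)} (hA : Anti cs F) {i : B} {β γ : B → ℝ} (hβ : β ∈ F) (hγ : γ ∈ F)
    (hne : β ≠ γ) (hs : (Sw cs F i β ∧ ¬ Sw cs F i γ) ∨ (¬ Sw cs F i β ∧ Sw cs F i γ)) :
    ¬ Dom cs (sg M i β) γ := by
  intro hd
  have hbg := hA β hβ γ hγ hne
  rcases lt_trichotomy (coroot M i β) 0 with hb | hb | hb
  · rcases lt_trichotomy (coroot M i γ) 0 with hg | hg | hg
    · exact hbg (hd.low hb.le hg.le)
    · apply hbg
      have := hd.sg'
      rwa [sg_of_coroot_eq_zero hg] at this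
    · rcases hs with ⟨h1, h2⟩ | ⟨h1, h2⟩
      · have hU : ¬ ∃ p ∈ F, 0 < coroot M i p ∧ Dom cs p (sg M i β) := by
          rcases h1 with h1 | h1
          · exact h1.2
          · exact absurd hb (not_lt.2 h1.1.le)
        apply hU
        refine ⟨γ, hγ, hg, ?_⟩
        by_contra hc
        exact h2 (Or.inr ⟨hg, β, hβ, hb, hd, hc⟩)
      · have hU : ∃ p ∈ F, 0 < coroot M i p ∧ Dom cs p (sg M i β) := by
          by_contra hc
          exact h1 (Or.inl ⟨hb, hc⟩)
        obtain ⟨p, hp, hp0, hpd⟩ := hU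
        have hpg : p = γ := by
          by_contra hc
          exact hA p hp γ hγ hc (hpd.trans hd)
        subst hpg
        rcases h2 with h2 | h2
        · exact absurd hg (not_lt.2 h2.1.le)
        · obtain ⟨_, m, hm, hm0, hmd, hmn⟩ := h2
          have h3 : Dom cs (sg M i m) (sg M i β) := hmd.trans hpd
          have h4 : Dom cs m β := by
            have := h3.sg i
            rwa [sg_sg, sg_sg] at this
          have h5 : m = β := by
            by_contra hc
            exact hA m hm β hβ hc h4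
          subst h5
          exact hmn hpd
  · rw [sg_of_coroot_eq_zero hb] at hd
    exact hbg hd
  · have hd' : Dom cs β (sg M i γ) := hd.sg'
    rcases lt_trichotomy (coroot M i γ) 0 with hg | hg | hg
    · rcases hs with ⟨h1, h2⟩ | ⟨h1, h2⟩
      · rcases h1 with h1 | h1
        · exact absurd hb (not_lt.2 h1.1.le)
        · obtain ⟨_, m, hm, hm0, hmd, hmn⟩ := h1
          have h3 : Dom cs (sg M i m) (sg M i γ) := hmd.trans hd'
          have h4 : Dom cs m γ := by
            have := h3.sg i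
            rwa [sg_sg, sg_sg] at this
          have h5 : m = γ := by
            by_contra hc
            exact hA m hm γ hγ hc h4
          subst h5
          exact hmn hd'
      · rcases h2 with h2 | h2
        · exact h2.2 ⟨β, hβ, hb, hd'⟩
        · exact absurd hg (not_lt.2 h2.1.le)
    · rw [sg_of_coroot_eq_zero hg] at hd'
      exact hbg hd'
    · apply hbg
      have h1 : Dom cs (sg M i (sg M i β)) (sg M i γ) := by rwa [sg_sg]
      have h2 : Dom cs (sg M i β) (sg M i γ) := by
        apply h1.low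
        · rw [coroot_sg]; linarith
        · rw [coroot_sg]; linarith
      have := h2.sg i
      rwa [sg_sg, sg_sg] at this

lemma sigma_anti {F : Finset (B → ℝ)} (hA : Anti cs F) {i : B} {β γ : B → ℝ} (hβ : β ∈ F)
    (hγ : γ ∈ F) (hne : β ≠ γ) : ¬ Dom cs (sigma cs F i β) (sigma cs F i γ) := by
  intro hd
  unfold sigma at hd
  split_ifs at hd with h1 h2 h2
  · have := hd.sg i
    rw [sg_sg, sg_sg] at this
    exact hA β hβ γ hγ hne this
  · exact mixed hA hβ hγ hne (Or.inl ⟨h1, h2⟩) hd
  · exact mixed hA hβ hγ hne (Or.inr ⟨h1, h2⟩) hd.sg''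
  · exact hA β hβ γ hγ hne hd

/-- **Switching lemma.** -/
theorem switch {x y : W} {i : B} (hx : geo cs x (ee i) ≤ 0) (hy : 0 ≤ geo cs y⁻¹ (ee i))
    {F : Finset (B → ℝ)} (hF : ∀ β ∈ F, β ∈ Nn cs x y) (hA : Anti cs F) :
    ∃ F' : Finset (B → ℝ), (∀ β ∈ F', β ∈ Nn cs x (cs.simple i * y)) ∧ Anti cs F' ∧
      F'.card = F.card + 1 := by
  classical
  have hYs : ∀ v, geo cs (cs.simple i * y)⁻¹ v = geo cs y⁻¹ (sg M i v) := by
    intro v
    rw [mul_inv_rev, cs.inv_simple, map_mul, Module.End.mul_apply, geo_simple]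
  have hya : ¬ geo cs y⁻¹ (ee i) ≤ 0 := ((isRoot_ee i).geo _).not_nonpos hy
  have hneF : ∀ β ∈ F, β ≠ ee i := by
    rintro β hβ rfl
    exact hya (hF _ hβ).2.2.2
  -- the switched roots
  have hroot : ∀ β ∈ F, IsRoot cs (sigma cs F i β) ∧ 0 ≤ sigma cs F i β := by
    intro β hβ
    have hb := hF β hβ
    unfold sigma
    split_ifs
    · exact ⟨hb.1.sg i, hb.1.simple_pos hb.2.1 (hneF β hβ)⟩
    · exact ⟨hb.1, hb.2.1⟩
  have hmem : ∀ β ∈ F, sigma cs F i β ∈ Nn cs x (cs.simple i * y) := by
    intro β hβ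
    refine ⟨(hroot β hβ).1, (hroot β hβ).2, ?_⟩
    rw [hYs]
    obtain ⟨hr, h0, hX, hY⟩ := hF β hβ
    unfold sigma
    split_ifs with hs
    · rw [sg_sg]
      refine ⟨?_, hY⟩
      rcases hs with hs | hs
      · rw [sg_apply, map_sub, map_smul]
        intro j
        have h4 := hX j
        have h5 := hx j
        have h6 := hs.1
        simp only [Pi.sub_apply, Pi.smul_apply, smul_eq_mul, Pi.zero_apply] at h4 h5 ⊢
        nlinarith
      · obtain ⟨_, m, hm, _, hmd, _⟩ := hs
        exact hmd.sg' x (hF m hm).2.2.1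
    · refine ⟨hX, ?_⟩
      rcases lt_trichotomy (coroot M i β) 0 with hb | hb | hb
      · have hU : ∃ p ∈ F, 0 < coroot M i p ∧ Dom cs p (sg M i β) := by
          by_contra hc
          exact hs (Or.inl ⟨hb, hc⟩)
        obtain ⟨p, hp, _, hpd⟩ := hU
        exact hpd _ (hF p hp).2.2.2
      · rwa [sg_of_coroot_eq_zero hb]
      · rw [sg_apply, map_sub, map_smul]
        intro j
        have h4 := hY j
        have h5 := hy j
        simp only [Pi.sub_apply, Pi.smul_apply, smul_eq_mul, Pi.zero_apply] at h4 h5 ⊢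
        nlinarith
  have hsne : ∀ β ∈ F, sigma cs F i β ≠ ee i := by
    intro β hβ h
    unfold sigma at h
    split_ifs at h
    · have h1 : β = - ee i := by
        rw [← sg_sg M i β, h, sg_ee_self]
      have h2 := (hF β hβ).2.1
      rw [h1] at h2
      exact ((isRoot_ee (cs := cs) i)).not_nonpos (ee_nonneg i) (neg_nonneg.1 h2)
    · exact hneF β hβ h
  have hinj : Set.InjOn (sigma cs F i) F := by
    intro β hβ γ hγ h
    by_contra hne
    apply sigma_anti hA hβ hγ hne
    rw [h]
    exact Dom.refl _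
  have hnm : ee i ∉ F.image (sigma cs F i) := by
    intro h
    obtain ⟨β, hβ, h1⟩ := Finset.mem_image.1 h
    exact hsne β hβ h1
  refine ⟨insert (ee i) (F.image (sigma cs F i)), ?_, ?_, ?_⟩
  · intro β hβ
    rcases Finset.mem_insert.1 hβ with rfl | hβ
    · refine ⟨isRoot_ee i, ee_nonneg i, hx, ?_⟩
      rw [hYs, sg_ee_self, map_neg]
      exact neg_nonpos.2 hy
    · obtain ⟨γ, hγ, rfl⟩ := Finset.mem_image.1 hβ
      exact hmem γ hγ
  · -- antichain
    have h1 : ∀ β ∈ F, ¬ Dom cs (ee i) (sigma cs F i β) := by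
      intro β hβ hd
      have h2 := hd (cs.simple i)
      rw [geo_simple, sg_ee_self] at h2
      have h3 := h2 (neg_nonpos.2 (ee_nonneg i))
      exact ((hroot β hβ).1.sg i).not_nonpos ((hroot β hβ).1.simple_pos (hroot β hβ).2
        (hsne β hβ)) h3
    have h2 : ∀ β ∈ F, ¬ Dom cs (sigma cs F i β) (ee i) := by
      intro β hβ hd
      unfold sigma at hd
      split_ifs at hd
      · have h3 := hd.sg' x (hF β hβ).2.2.1
        rw [sg_ee_self, map_neg] at h3
        exact ((isRoot_ee i).geo x).not_nonpos (neg_nonpos.1 h3) hx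
      · exact hya (hd _ (hF β hβ).2.2.2)
    intro β hβ γ hγ hne
    rcases Finset.mem_insert.1 hβ with rfl | hβ
    · rcases Finset.mem_insert.1 hγ with rfl | hγ
      · exact absurd rfl hne
      · obtain ⟨γ', hγ', rfl⟩ := Finset.mem_image.1 hγ
        exact h1 γ' hγ'
    · obtain ⟨β', hβ', rfl⟩ := Finset.mem_image.1 hβ
      rcases Finset.mem_insert.1 hγ with rfl | hγ
      · exact h2 β' hβ'
      · obtain ⟨γ', hγ', rfl⟩ := Finset.mem_image.1 hγ
        apply sigma_anti hA hβ' hγ'
        rintro rfl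
        exact hne rfl
  · rw [Finset.card_insert_of_notMem hnm, Finset.card_image_of_injOn hinj]

/-- shifting a letter does not change the largest size of an antichain -/
theorem shift {x y : W} {i : B} (hy : 0 ≤ geo cs y⁻¹ (ee i))
    {F : Finset (B → ℝ)} (hF : ∀ β ∈ F, β ∈ Nn cs (x * cs.simple i) y) (hA : Anti cs F) :
    ∃ F' : Finset (B → ℝ), (∀ β ∈ F', β ∈ Nn cs x (cs.simple i * y)) ∧ Anti cs F' ∧
      F'.card = F.card := by
  classical
  have hinj : Function.Injective (sg M i) := fun u v h => by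
    rw [← sg_sg M i u, h, sg_sg]
  have hya : ¬ geo cs y⁻¹ (ee i) ≤ 0 := ((isRoot_ee i).geo _).not_nonpos hy
  refine ⟨F.image (sg M i), ?_, ?_, Finset.card_image_of_injective _ hinj⟩
  · intro β hβ
    obtain ⟨γ, hγ, rfl⟩ := Finset.mem_image.1 hβ
    obtain ⟨h1, h2, h3, h4⟩ := hF γ hγ
    refine ⟨h1.sg i, h1.simple_pos h2 ?_, ?_, ?_⟩
    · rintro rfl; exact hya h4
    · rw [map_mul, Module.End.mul_apply, geo_simple] at h3
      exact h3
    · rw [mul_inv_rev, cs.inv_simple, map_mul, Module.End.mul_apply, geo_simple, sg_sg]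
      exact h4
  · intro β hβ γ hγ hne
    obtain ⟨β', hβ', rfl⟩ := Finset.mem_image.1 hβ
    obtain ⟨γ', hγ', rfl⟩ := Finset.mem_image.1 hγ
    intro hd
    have := hd.sg i
    rw [sg_sg, sg_sg] at this
    exact hA β' hβ' γ' hγ' (fun h => hne (by rw [h])) this

end Pool.Agent.TH5.BD
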