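import Mathlib
import Pool.Agent.TH5.BD.Switch
import Pool.Agent.TH5.BD.Lattice

set_option autoImplicit false
set_option linter.unusedSectionVars false

/-!
# Degrees of the structure constants of `T_x T_y`
-/

namespace Pool.Agent.TH5.BD

open CoxeterSystem Pool.Agent.Helper703.Cox LaurentPolynomial

/-- all exponents of `p` are at most `n` -/
def Dg (p : LaurentPolynomial ℤ) (n : ℤ) : Prop := ∀ m, n < m → p.coeff m = 0

lemma Dg.mono {p : LaurentPolynomial ℤ} {n n' : ℤ} (h : Dg p n) (hn : n ≤ n') : Dg p n' :=
  fun m hm => h m (lt_of_le_of_lt hn hm)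

lemma Dg.add {p p' : LaurentPolynomial ℤ} {n : ℤ} (h : Dg p n) (h' : Dg p' n) : Dg (p + p') n := by
  intro m hm
  rw [AddMonoidAlgebra.coeff_add, Finsupp.add_apply, h m hm, h' m hm, add_zero]

lemma dg_zero (n : ℤ) : Dg 0 n := fun m _ => by simp

lemma dg_one {n : ℤ} (hn : 0 ≤ n) : Dg 1 n := by
  intro m hm
  rw [← T_zero, T_apply]
  have : (0 : ℤ) ≠ m := by omega
  simp [this]

lemma Dg.neg {p : LaurentPolynomial ℤ} {n : ℤ} (h : Dg p n) : Dg (-p) n := by
  intro m hm
  rw [AddMonoidAlgebra.coeff_neg, Finsupp.neg_apply, h m hm, neg_zero]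

lemma Dg.T_mul {p : LaurentPolynomial ℤ} {n : ℤ} (h : Dg p n) (a : ℤ) : Dg (T a * p) (n + a) := by
  intro m hm
  have h1 : (T a * p).coeff m = p.coeff (m - a) := by
    have : m = a + (m - a) := by ring
    conv_lhs => rw [this]
    rw [T, AddMonoidAlgebra.coeff_single_mul_add, one_mul]
  rw [h1]
  exact h _ (by omega)

lemma dg_iff {p : LaurentPolynomial ℤ} {n : ℤ} : Dg p n ↔ p.degree ≤ (n : WithBot ℤ) := by
  unfold LaurentPolynomial.degree
  rw [Finset.max_le_iff]
  constructor
  · intro h m hm
    by_contra hc
    have h1 : n < m := by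
      rw [not_le] at hc
      exact_mod_cast hc
    exact (Finsupp.mem_support_iff.1 hm) (h m h1)
  · intro h m hm
    by_contra hc
    have h1 := h m (Finsupp.mem_support_iff.2 hc)
    have h2 : m ≤ n := by exact_mod_cast h1
    omega

variable {B : Type*} {M : CoxeterMatrix B}
variable {W : Type*} [Group W] {cs : CoxeterSystem M W}

/-- the parameter `q ^ L(s) - q ^ (-L(s))` -/
noncomputable def xi (n : ℕ) : LaurentPolynomial ℤ := T (n : ℤ) - T (-(n : ℤ))

lemma Dg.xi_mul {p : LaurentPolynomial ℤ} {n : ℤ} (h : Dg p n) (a : ℕ) :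
    Dg (xi a * p) (n + a) := by
  have h1 : xi a * p = T (a : ℤ) * p + -(T (-(a : ℤ)) * p) := by unfold xi; ring
  rw [h1]
  exact (h.T_mul _).add (((h.T_mul _).mono (by omega)).neg)

/-- `f x y z` are the structure constants of the standard basis of the Hecke algebra of
`(W, S, L)`: the recursion for left multiplication by `T_s`. -/
structure IsSC (cs : CoxeterSystem M W) (L : W → ℕ) (f : W → W → W → LaurentPolynomial ℤ) :
    Prop where
  one : ∀ y, f 1 y y = 1
  ne : ∀ y z, y ≠ z → f 1 y z = 0
  up : ∀ (i : B) (x y w : W), cs.length x < cs.length (cs.simple i * x) →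
    cs.length w < cs.length (cs.simple i * w) → f (cs.simple i * x) y w = f x y (cs.simple i * w)
  down : ∀ (i : B) (x y w : W), cs.length x < cs.length (cs.simple i * x) →
    cs.length (cs.simple i * w) < cs.length w →
    f (cs.simple i * x) y w = f x y (cs.simple i * w) + xi (L (cs.simple i)) * f x y w

variable {L : W → ℕ} {f : W → W → W → LaurentPolynomial ℤ}

lemma len_cases (i : B) (w : W) : cs.length w < cs.length (cs.simple i * w) ∨
    cs.length (cs.simple i * w) < cs.length w := by
  rcases cs.length_simple_mul w i with h | h <;> omega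

lemma IsSC.R1 (h : IsSC cs L f) {i : B} {y : W} (hy : cs.length y < cs.length (cs.simple i * y)) :
    ∀ (n : ℕ) (x : W), cs.length x = n → cs.length x < cs.length (x * cs.simple i) →
      ∀ w, f x (cs.simple i * y) w = f (x * cs.simple i) y w := by
  classical
  intro n
  induction n with
  | zero =>
    intro x hx hxs w
    have hx1 : x = 1 := cs.length_eq_zero_iff.1 hx
    subst hx1
    rw [one_mul] at hxs ⊢
    have hs : cs.length (1 : W) < cs.length (cs.simple i * 1) := by rw [mul_one]; exact hxs
    rcases len_cases (cs := cs) i w with hw | hw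
    · have h1 := h.up i 1 y w hs hw
      rw [mul_one] at h1
      rw [h1]
      have hne1 : cs.simple i * y ≠ w := by
        rintro rfl
        rw [cs.simple_mul_simple_cancel_left] at hw
        omega
      have hne2 : y ≠ cs.simple i * w := by
        rintro rfl
        rw [cs.simple_mul_simple_cancel_left] at hy
        omega
      rw [h.ne _ _ hne1, h.ne _ _ hne2]
    · have h1 := h.down i 1 y w hs hw
      rw [mul_one] at h1
      rw [h1]
      have hne : y ≠ w := by
        rintro rfl
        omega
      rw [h.ne _ _ hne, mul_zero, add_zero]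
      by_cases he : cs.simple i * y = w
      · subst he
        rw [cs.simple_mul_simple_cancel_left, h.one, h.one]
      · have hne2 : y ≠ cs.simple i * w := by
          rintro rfl
          rw [cs.simple_mul_simple_cancel_left] at he
          exact he rfl
        rw [h.ne _ _ he, h.ne _ _ hne2]
  | succ n ih =>
    intro x hx hxs w
    have hx1 : x ≠ 1 := by
      rintro rfl
      rw [cs.length_one] at hx
      omega
    obtain ⟨j, hj⟩ := cs.exists_leftDescent_of_ne_one hx1
    have hj' : cs.length (cs.simple j * x) + 1 = cs.length x := cs.isLeftDescent_iff.mp hj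
    set x' := cs.simple j * x with hx'
    have hxx : x = cs.simple j * x' := by rw [hx', cs.simple_mul_simple_cancel_left]
    have h2 : cs.length (x' * cs.simple i) + 1 ≥ cs.length (x * cs.simple i) := by
      have := cs.length_mul_le (cs.simple j) (x' * cs.simple i)
      rw [← mul_assoc, ← hxx, cs.length_simple] at this
      omega
    have h3 : cs.length (x * cs.simple i) = cs.length x + 1 := by
      rcases cs.length_mul_simple x i with h | h <;> omega
    have h4 : cs.length x' < cs.length (x' * cs.simple i) := by omega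
    have h5 : cs.length (x' * cs.simple i) < cs.length (cs.simple j * (x' * cs.simple i)) := by
      rw [← mul_assoc, ← hxx]
      have := cs.length_mul_le x' (cs.simple i)
      rw [cs.length_simple] at this
      omega
    have h6 : cs.length x' < cs.length (cs.simple j * x') := by rw [← hxx]; omega
    have ih' := ih x' (by omega) h4
    have e : x * cs.simple i = cs.simple j * (x' * cs.simple i) := by rw [← mul_assoc, ← hxx]
    rw [e, hxx]
    rcases len_cases (cs := cs) j w with hw | hw
    · rw [h.up j _ _ _ h6 hw, h.up j _ _ _ h5 hw, ih']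
    · rw [h.down j _ _ _ h6 hw, h.down j _ _ _ h5 hw, ih', ih']

lemma IsSC.R2 (h : IsSC cs L f) {i : B} {y : W} (hy : cs.length y < cs.length (cs.simple i * y)) :
    ∀ (n : ℕ) (x : W), cs.length x = n → cs.length x < cs.length (x * cs.simple i) →
      ∀ w, f (x * cs.simple i) (cs.simple i * y) w =
        f x y w + xi (L (cs.simple i)) * f (x * cs.simple i) y w := by
  classical
  intro n
  induction n with
  | zero =>
    intro x hx hxs w
    have hx1 : x = 1 := cs.length_eq_zero_iff.1 hx
    subst hx1
    rw [one_mul] at hxs ⊢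
    have hs : cs.length (1 : W) < cs.length (cs.simple i * 1) := by rw [mul_one]; exact hxs
    rcases len_cases (cs := cs) i w with hw | hw
    · have h1 := h.up i 1 y w hs hw
      have h2 := h.up i 1 (cs.simple i * y) w hs hw
      rw [mul_one] at h1 h2
      rw [h1, h2]
      have hne2 : y ≠ cs.simple i * w := by
        rintro rfl
        rw [cs.simple_mul_simple_cancel_left] at hy
        omega
      rw [h.ne _ _ hne2, mul_zero, add_zero]
      by_cases he : y = w
      · subst he
        rw [h.one, h.one]
      · have hne : cs.simple i * y ≠ cs.simple i * w := fun hc => he (mul_left_cancel hc)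
        rw [h.ne _ _ he, h.ne _ _ hne]
    · have h1 := h.down i 1 y w hs hw
      have h2 := h.down i 1 (cs.simple i * y) w hs hw
      rw [mul_one] at h1 h2
      rw [h1, h2]
      have hne : y ≠ w := by
        rintro rfl
        omega
      have hne' : cs.simple i * y ≠ cs.simple i * w := fun hc => hne (mul_left_cancel hc)
      rw [h.ne _ _ hne, h.ne _ _ hne', mul_zero, add_zero]
      by_cases he : cs.simple i * y = w
      · subst he
        rw [cs.simple_mul_simple_cancel_left, h.one, h.one]
      · have hne2 : y ≠ cs.simple i * w := by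
          rintro rfl
          rw [cs.simple_mul_simple_cancel_left] at he
          exact he rfl
        rw [h.ne _ _ he, h.ne _ _ hne2]
  | succ n ih =>
    intro x hx hxs w
    have hx1 : x ≠ 1 := by
      rintro rfl
      rw [cs.length_one] at hx
      omega
    obtain ⟨j, hj⟩ := cs.exists_leftDescent_of_ne_one hx1
    have hj' : cs.length (cs.simple j * x) + 1 = cs.length x := cs.isLeftDescent_iff.mp hj
    set x' := cs.simple j * x with hx'
    have hxx : x = cs.simple j * x' := by rw [hx', cs.simple_mul_simple_cancel_left]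
    have h2 : cs.length (x' * cs.simple i) + 1 ≥ cs.length (x * cs.simple i) := by
      have := cs.length_mul_le (cs.simple j) (x' * cs.simple i)
      rw [← mul_assoc, ← hxx, cs.length_simple] at this
      omega
    have h3 : cs.length (x * cs.simple i) = cs.length x + 1 := by
      rcases cs.length_mul_simple x i with h | h <;> omega
    have h4 : cs.length x' < cs.length (x' * cs.simple i) := by omega
    have h5 : cs.length (x' * cs.simple i) < cs.length (cs.simple j * (x' * cs.simple i)) := by
      rw [← mul_assoc, ← hxx]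
      have := cs.length_mul_le x' (cs.simple i)
      rw [cs.length_simple] at this
      omega
    have h6 : cs.length x' < cs.length (cs.simple j * x') := by rw [← hxx]; omega
    have ih' := ih x' (by omega) h4
    have e : x * cs.simple i = cs.simple j * (x' * cs.simple i) := by rw [← mul_assoc, ← hxx]
    rw [e, hxx]
    rcases len_cases (cs := cs) j w with hw | hw
    · rw [h.up j _ _ _ h5 hw, h.up j _ _ _ h6 hw, h.up j _ _ _ h5 hw, ih']
    · rw [h.down j _ _ _ h5 hw, h.down j _ _ _ h6 hw, h.down j _ _ _ h5 hw, ih', ih']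
      ring

lemma IsSC.right_one (h : IsSC cs L f) : ∀ (n : ℕ) (x : W), cs.length x = n → ∀ z,
    (x = z → f x 1 z = 1) ∧ (x ≠ z → f x 1 z = 0) := by
  intro n
  induction n with
  | zero =>
    intro x hx z
    have hx1 : x = 1 := cs.length_eq_zero_iff.1 hx
    subst hx1
    exact ⟨by rintro rfl; exact h.one _, h.ne _ _⟩
  | succ n ih =>
    intro x hx z
    have hx1 : x ≠ 1 := by
      rintro rfl
      rw [cs.length_one] at hx
      omega
    obtain ⟨j, hj⟩ := cs.exists_leftDescent_of_ne_one hx1
    have hj' : cs.length (cs.simple j * x) + 1 = cs.length x := cs.isLeftDescent_iff.mp hj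
    set x' := cs.simple j * x with hx'
    have hxx : x = cs.simple j * x' := by rw [hx', cs.simple_mul_simple_cancel_left]
    have h6 : cs.length x' < cs.length (cs.simple j * x') := by rw [← hxx]; omega
    rw [hxx]
    have iff1 : x' = cs.simple j * z ↔ cs.simple j * x' = z := by
      constructor
      · intro he; rw [he, cs.simple_mul_simple_cancel_left]
      · intro he; rw [← he, cs.simple_mul_simple_cancel_left]
    rcases len_cases (cs := cs) j z with hw | hw
    · rw [h.up j _ _ _ h6 hw, ← iff1, Ne, ← iff1]
      exact ih x' (by omega) (cs.simple j * z)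
    · rw [h.down j _ _ _ h6 hw, ← iff1, Ne, ← iff1]
      have hne : x' ≠ z := by
        rintro rfl
        omega
      rw [(ih x' (by omega) z).2 hne, mul_zero, add_zero]
      exact ih x' (by omega) (cs.simple j * z)

variable [Fintype B] [DecidableEq B]

/-- **Degree bound by antichains.** -/
theorem IsSC.dg (h : IsSC cs L f) {K : ℕ} (hK : ∀ i, L (cs.simple i) ≤ K) :
    ∀ (n : ℕ) (x y : W) (k : ℕ), cs.length y = n →
      (∀ F : Finset (B → ℝ), (∀ β ∈ F, β ∈ Nn cs x y) → Anti cs F → F.card ≤ k) →
      ∀ z, Dg (f x y z) ((k * K : ℕ) : ℤ) := by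
  classical
  intro n
  induction n with
  | zero =>
    intro x y k hy _ z
    have hy1 : y = 1 := cs.length_eq_zero_iff.1 hy
    subst hy1
    by_cases hz : x = z
    · rw [(h.right_one _ x rfl z).1 hz]
      exact dg_one (by positivity)
    · rw [(h.right_one _ x rfl z).2 hz]
      exact dg_zero _
  | succ n ih =>
    intro x y k hy hF z
    have hy1 : y ≠ 1 := by
      rintro rfl
      rw [cs.length_one] at hy
      omega
    obtain ⟨i, hi⟩ := cs.exists_leftDescent_of_ne_one hy1
    have hi' : cs.length (cs.simple i * y) + 1 = cs.length y := cs.isLeftDescent_iff.mp hi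
    obtain ⟨y', hy'⟩ : ∃ y', y' = cs.simple i * y := ⟨_, rfl⟩
    rw [← hy'] at hi'
    have hyy : y = cs.simple i * y' := by rw [hy', cs.simple_mul_simple_cancel_left]
    have h6 : cs.length y' < cs.length (cs.simple i * y') := by rw [← hyy]; omega
    have hpos : 0 ≤ geo cs y'⁻¹ (ee i) := by
      apply geo_nonneg
      have e : y'⁻¹ * cs.simple i = (cs.simple i * y')⁻¹ := by rw [mul_inv_rev, cs.inv_simple]
      rw [e, cs.length_inv, cs.length_inv]
      exact h6
    rw [hyy] at hF ⊢
    -- bound for the pair `(x s, y')`
    have hb : ∀ F : Finset (B → ℝ), (∀ β ∈ F, β ∈ Nn cs (x * cs.simple i) y') → Anti cs F →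
        F.card ≤ k := by
      intro F hF1 hF2
      obtain ⟨F', h1, h2, h3⟩ := shift hpos hF1 hF2
      rw [← h3]
      exact hF F' h1 h2
    rcases cs.length_mul_simple x i with hx | hx
    · rw [h.R1 h6 _ x rfl (by omega)]
      exact ih _ _ k (by omega) hb z
    · have hx2 : x = x * cs.simple i * cs.simple i := by rw [cs.simple_mul_simple_cancel_right]
      have hxneg : geo cs x (ee i) ≤ 0 := geo_nonpos cs x i (by omega)
      -- bound for the pair `(x, y')`
      have hk : 1 ≤ k := by
        obtain ⟨F', h1, h2, h3⟩ := switch (F := ∅) hxneg hpos (by simp) (by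
          intro β hβ; simp at hβ)
        have := hF F' h1 h2
        rw [h3, Finset.card_empty] at this
        exact this
      obtain ⟨k', rfl⟩ : ∃ k', k = k' + 1 := ⟨k - 1, by omega⟩
      have hb' : ∀ F : Finset (B → ℝ), (∀ β ∈ F, β ∈ Nn cs x y') → Anti cs F →
          F.card ≤ k' := by
        intro F hF1 hF2
        obtain ⟨F', h1, h2, h3⟩ := switch hxneg hpos hF1 hF2
        have := hF F' h1 h2
        omega
      have e := h.R2 h6 _ (x * cs.simple i) rfl (by
        rw [cs.simple_mul_simple_cancel_right]; omega) z
      rw [← hx2] at e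
      rw [e]
      apply Dg.add
      · exact ih _ _ _ (by omega) hb z
      · have h7 := (ih x y' k' (by omega) hb' z).xi_mul (L (cs.simple i))
        apply h7.mono
        have := hK i
        push_cast
        nlinarith

/-- Uniform bound. -/
theorem uniform (cs : CoxeterSystem M W) : ∃ C : ℕ, ∀ (L : W → ℕ)
    (f : W → W → W → LaurentPolynomial ℤ), IsSC cs L f → ∀ K : ℕ, (∀ i, L (cs.simple i) ≤ K) →
      ∀ x y z, Dg (f x y z) ((C * K : ℕ) : ℤ) := by
  obtain ⟨C, hC⟩ := anti_bound cs
  refine ⟨C, fun L f h K hK x y z => ?_⟩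
  exact h.dg hK _ x y C rfl (fun F hF hA => hC x F (fun β hβ =>
    ⟨(hF β hβ).1, (hF β hβ).2.1, (hF β hβ).2.2.1⟩) hA) z

end Pool.Agent.TH5.BD
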