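import Mathlib
import Pool.Agent.TH5.BD.Fold
import Pool.Agent.TH5.BD.Defs

set_option autoImplicit false
set_option linter.unusedSectionVars false

/-!
# Hecke algebras with a weight function, their Kazhdan-Lusztig bases
-/

namespace Pool.Agent.TH5.BD

open CoxeterSystem Module

variable {B : Type*} {M : CoxeterMatrix B} {W : Type*} [Group W]

section degree

variable {H : Type*} [Ring H] [Algebra A H] {T C : Basis W A H}

/-- coefficients of degree at most `n` -/
def DgH (T : Basis W A H) (h : H) (n : ℤ) : Prop := ∀ w, Dg (T.repr h w) n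

lemma DgH.zero (n : ℤ) : DgH T (0 : H) n := fun w => by
  rw [map_zero]; exact dg_zero n

lemma DgH.add {h h' : H} {n : ℤ} (h1 : DgH T h n) (h2 : DgH T h' n) : DgH T (h + h') n := fun w => by
  rw [map_add]; exact (h1 w).add (h2 w)

lemma DgH.sum {ι : Type*} {s : Finset ι} {g : ι → H} {n : ℤ} (h : ∀ i ∈ s, DgH T (g i) n) :
    DgH T (∑ i ∈ s, g i) n := by
  classical
  induction s using Finset.induction_on with
  | empty => simpa using DgH.zero n
  | insert a s ha ih =>
    rw [Finset.sum_insert ha]
    exact (h a (Finset.mem_insert_self _ _)).add (ih fun i hi => h i (Finset.mem_insert_of_mem hi))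

lemma Dg.mul {p p' : A} {n n' : ℤ} (h : Dg p n) (h' : Dg p' n') : Dg (p * p') (n + n') := by
  classical
  intro m hm
  rw [AddMonoidAlgebra.coeff_mul]
  refine Finset.sum_eq_zero fun a ha => Finset.sum_eq_zero fun b hb => ?_
  have ha' : a ≤ n := by
    by_contra hc
    exact (Finsupp.mem_support_iff.1 ha) (h a (not_le.1 hc))
  have hb' : b ≤ n' := by
    by_contra hc
    exact (Finsupp.mem_support_iff.1 hb) (h' b (not_le.1 hc))
  show (if a + b = m then p.coeff a * p'.coeff b else 0) = 0
  rw [if_neg (by omega)]

lemma DgH.smul {a : A} {h : H} {n n' : ℤ} (ha : Dg a n) (hh : DgH T h n') :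
    DgH T (a • h) (n + n') := fun w => by
  rw [map_smul, Finsupp.smul_apply, smul_eq_mul]
  exact ha.mul (hh w)

lemma basis_ind (T : Basis W A H) {P : H → Prop} (zero : P 0)
    (add : ∀ x y, P x → P y → P (x + y)) (smul : ∀ (a : A) x, P x → P (a • x))
    (basis : ∀ w, P (T w)) (h : H) : P h := by
  have hm : h ∈ Submodule.span A (Set.range T) := by rw [T.span_eq]; trivial
  induction hm using Submodule.span_induction with
  | mem x hx => obtain ⟨w, rfl⟩ := hx; exact basis w
  | zero => exact zero
  | add x y _ _ hx hy => exact add x y hx hy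
  | smul a x _ hx => exact smul a x hx

lemma IsNeg.dg {a : A} (h : IsNeg a) : Dg a (-1) := fun m hm => h m (by omega)

end degree

section hecke

variable {H : Type*} [Ring H] [Algebra A H] {cs : CoxeterSystem M W} {L : W → ℤ}
variable {T : Basis W A H}

lemma IsHecke.one (hT : IsHecke cs L T) : T 1 = 1 := by
  have h1 : ∀ h : H, T 1 * h = h := by
    intro h
    induction h using basis_ind T with
    | zero => rw [mul_zero]
    | add x y hx hy => rw [mul_add, hx, hy]
    | smul a x hx => rw [mul_smul_comm, hx]
    | basis w =>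
      have := hT.mul 1 w (by rw [one_mul, cs.length_one, zero_add])
      rw [← this, one_mul]
  have := h1 1
  rwa [mul_one] at this

lemma IsHecke.lt (hT : IsHecke cs L T) {i : B} {w : W}
    (h : cs.length w < cs.length (cs.simple i * w)) :
    T (cs.simple i) * T w = T (cs.simple i * w) := by
  rw [hT.mul]
  rcases cs.length_simple_mul w i with h1 | h1
  · rw [h1, cs.length_simple, add_comm]
  · omega

lemma IsHecke.gt (hT : IsHecke cs L T) {i : B} {w : W}
    (h : cs.length (cs.simple i * w) < cs.length w) :
    T (cs.simple i) * T w = T (cs.simple i * w) +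
      (q (L (cs.simple i)) - q (-L (cs.simple i))) • T w := by
  obtain ⟨u, hu⟩ : ∃ u, u = cs.simple i * w := ⟨_, rfl⟩
  have hw : w = cs.simple i * u := by rw [hu, cs.simple_mul_simple_cancel_left]
  rw [← hu] at h
  have h1 : T w = T (cs.simple i) * T u := by
    rw [hT.lt (by rw [← hw]; exact h), ← hw]
  rw [h1, ← mul_assoc, hT.quad, add_mul, one_mul, smul_mul_assoc, ← hu]

lemma IsHecke.repr_simple (hT : IsHecke cs L T) (i : B) (h : H) (w : W) :
    (cs.length w < cs.length (cs.simple i * w) →
      T.repr (T (cs.simple i) * h) w = T.repr h (cs.simple i * w)) ∧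
    (cs.length (cs.simple i * w) < cs.length w →
      T.repr (T (cs.simple i) * h) w = T.repr h (cs.simple i * w) +
        (q (L (cs.simple i)) - q (-L (cs.simple i))) * T.repr h w) := by
  classical
  induction h using basis_ind T with
  | zero => simp
  | add x y hx hy =>
    refine ⟨fun h => ?_, fun h => ?_⟩
    · rw [mul_add, map_add, map_add, Finsupp.add_apply, Finsupp.add_apply, hx.1 h, hy.1 h]
    · rw [mul_add, map_add, map_add, Finsupp.add_apply, Finsupp.add_apply, Finsupp.add_apply,
        hx.2 h, hy.2 h]
      ring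
  | smul a x hx =>
    refine ⟨fun h => ?_, fun h => ?_⟩
    · rw [mul_smul_comm, map_smul, map_smul, Finsupp.smul_apply, Finsupp.smul_apply, hx.1 h]
    · rw [mul_smul_comm, map_smul, map_smul, Finsupp.smul_apply, Finsupp.smul_apply,
        Finsupp.smul_apply, hx.2 h]
      simp only [smul_eq_mul]
      ring
  | basis v =>
    have iff1 : cs.simple i * v = w ↔ v = cs.simple i * w := by
      constructor
      · intro he; rw [← he, cs.simple_mul_simple_cancel_left]
      · intro he; rw [he, cs.simple_mul_simple_cancel_left]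
    rcases len_cases (cs := cs) i v with hv | hv
    · rw [hT.lt hv, Basis.repr_self, Basis.repr_self, Finsupp.single_apply, Finsupp.single_apply,
        Finsupp.single_apply]
      refine ⟨fun _ => ?_, fun h => ?_⟩
      · simp only [iff1]
      · have hne : v ≠ w := by
          rintro rfl
          omega
        simp only [iff1, hne, if_false, mul_zero, add_zero]
    · rw [hT.gt hv, map_add, map_smul, Basis.repr_self, Basis.repr_self, Finsupp.add_apply,
        Finsupp.smul_apply, Finsupp.single_apply, Finsupp.single_apply, Finsupp.single_apply]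
      refine ⟨fun h => ?_, fun _ => ?_⟩
      · have hne : v ≠ w := by
          rintro rfl
          omega
        simp only [iff1, hne, if_false, smul_zero, add_zero]
      · simp only [iff1, smul_eq_mul]

lemma IsHecke.isSC (hT : IsHecke cs L T) (hL : IsWeight cs L) :
    IsSC cs (fun w => (L w).toNat) (fun x y z => T.repr (T x * T y) z) := by
  have hxi : ∀ i : B, xi (L (cs.simple i)).toNat =
      q (L (cs.simple i)) - q (-L (cs.simple i)) := by
    intro i
    unfold xi
    rw [Int.toNat_of_nonneg (hL.pos i).le]
  refine ⟨?_, ?_, ?_, ?_⟩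
  · intro y
    simp [hT.one]
  · intro y z hyz
    simp [hT.one, hyz]
  · intro i x y w hx hw
    show T.repr (T (cs.simple i * x) * T y) w = T.repr (T x * T y) (cs.simple i * w)
    rw [← hT.lt hx, mul_assoc]
    exact (hT.repr_simple i _ w).1 hw
  · intro i x y w hx hw
    show T.repr (T (cs.simple i * x) * T y) w = T.repr (T x * T y) (cs.simple i * w) +
      xi (L (cs.simple i)).toNat * T.repr (T x * T y) w
    rw [← hT.lt hx, mul_assoc, hxi]
    exact (hT.repr_simple i _ w).2 hw

end hecke

section kl

variable {H : Type*} [Ring H] [Algebra A H] {T C : Basis W A H} {bar : H →+* H}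

/-- products of elements with coefficients of bounded degree -/
lemma DgH.mul {N : ℤ} (hN : ∀ x y, DgH T (T x * T y) N) {g h : H} {a b : ℤ}
    (hg : DgH T g a) (hh : DgH T h b) : DgH T (g * h) (a + b + N) := by
  have e : g * h = ∑ x ∈ (T.repr g).support, ∑ y ∈ (T.repr h).support,
      (T.repr g x * T.repr h y) • (T x * T y) := by
    conv_lhs => rw [← T.linearCombination_repr g, ← T.linearCombination_repr h]
    rw [Finsupp.linearCombination_apply, Finsupp.linearCombination_apply, Finsupp.sum,
      Finsupp.sum, Finset.sum_mul_sum]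
    refine Finset.sum_congr rfl fun x _ => Finset.sum_congr rfl fun y _ => ?_
    rw [smul_mul_smul_comm]
  rw [e]
  exact DgH.sum fun x _ => DgH.sum fun y _ => DgH.smul ((hg x).mul (hh y)) (hN x y)

lemma IsKL.dgH (hC : IsKL T bar C) (w : W) : DgH T (C w) 0 := by
  classical
  have h1 : C w = T w + (C w - T w) := by abel
  rw [h1]
  apply DgH.add
  · intro v
    rw [Basis.repr_self, Finsupp.single_apply]
    split_ifs
    · exact dg_one le_rfl
    · exact dg_zero _
  · intro v
    exact (hC.cong w v).dg.mono (by norm_num)

/-- the degrees in the Kazhdan-Lusztig basis are bounded by the degrees in the standard basis -/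
lemma IsKL.dg_repr (hC : IsKL T bar C) {h : H} {N : ℤ} (hh : DgH T h N) :
    ∀ w, Dg (C.repr h w) N := by
  classical
  by_contra hcon
  push Not at hcon
  obtain ⟨w0, hw0⟩ := hcon
  unfold Dg at hw0
  push Not at hw0
  obtain ⟨m0, hm0, hm0'⟩ := hw0
  -- all exponents that occur
  set E : Finset ℤ := (C.repr h).support.biUnion (fun w => (C.repr h w).coeff.support) with hE
  have hmem : ∀ w m, (C.repr h w).coeff m ≠ 0 → m ∈ E := by
    intro w m hm
    rw [hE, Finset.mem_biUnion]
    refine ⟨w, ?_, Finsupp.mem_support_iff.2 hm⟩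
    rw [Finsupp.mem_support_iff]
    intro hc
    rw [hc] at hm
    exact hm (by simp)
  have hne : E.Nonempty := ⟨m0, hmem w0 m0 hm0'⟩
  set m := E.max' hne with hm
  have hmN : N < m := lt_of_lt_of_le hm0 (E.le_max' _ (hmem w0 m0 hm0'))
  have hmE : m ∈ E := E.max'_mem hne
  rw [hE] at hmE
  obtain ⟨w, hw, hwm⟩ := Finset.mem_biUnion.1 hmE
  have hwm' : (C.repr h w).coeff m ≠ 0 := Finsupp.mem_support_iff.1 hwm
  have hle : ∀ v, Dg (C.repr h v) m := by
    intro v k hk
    by_contra hc
    exact absurd (E.le_max' _ (hmem v k hc)) (not_le.2 hk)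
  -- expand `h`
  have e : h = ∑ v ∈ (C.repr h).support, C.repr h v • T v +
      ∑ v ∈ (C.repr h).support, C.repr h v • (C v - T v) := by
    conv_lhs => rw [← C.linearCombination_repr h]
    rw [Finsupp.linearCombination_apply, Finsupp.sum, ← Finset.sum_add_distrib]
    refine Finset.sum_congr rfl fun v _ => ?_
    rw [← smul_add]
    congr 1
    abel
  have h1 : T.repr (∑ v ∈ (C.repr h).support, C.repr h v • T v) w = C.repr h w := by
    rw [map_sum, Finsupp.finsetSum_apply, Finset.sum_eq_single w]
    · rw [map_smul, Basis.repr_self, Finsupp.smul_apply, Finsupp.single_eq_same, smul_eq_mul,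
        mul_one]
    · intro v _ hv
      rw [map_smul, Basis.repr_self, Finsupp.smul_apply, Finsupp.single_eq_of_ne (Ne.symm hv),
        smul_zero]
    · intro hc
      rw [Finsupp.notMem_support_iff.1 hc, zero_smul, map_zero]
      rfl
  have h2 : DgH T (∑ v ∈ (C.repr h).support, C.repr h v • (C v - T v)) (m + -1) :=
    DgH.sum fun v _ => DgH.smul (hle v) (fun u => (hC.cong v u).dg)
  have h3 : T.repr h w = C.repr h w +
      T.repr (∑ v ∈ (C.repr h).support, C.repr h v • (C v - T v)) w := by
    conv_lhs => rw [e]
    rw [map_add, Finsupp.add_apply, h1]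
  have h4 := hh w m hmN
  rw [h3, AddMonoidAlgebra.coeff_add, Finsupp.add_apply, h2 w m (by omega), add_zero] at h4
  exact hwm' h4

/-- if the structure constants `f` have degree at most `N`, so have the structure constants
`h` of the Kazhdan-Lusztig basis -/
theorem IsKL.bound (hC : IsKL T bar C) {N : ℤ} (hN : ∀ x y, DgH T (T x * T y) N) (x y z : W) :
    Dg (C.repr (C x * C y) z) N := by
  apply hC.dg_repr
  have := DgH.mul hN (hC.dgH x) (hC.dgH y)
  simpa using this

end kl

end Pool.Agent.TH5.BD
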