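import Mathlib
import Pool.Agent.TH5.BD.Fold
import Pool.Agent.TH5.BD.Hecke

set_option autoImplicit false
set_option linter.unusedSectionVars false

/-!
# The weighted switching lemma and the bound of degrees by crossing families of walls
-/

namespace Pool.Agent.TH5.BD

open CoxeterSystem Pool.Agent.Helper703.Cox Module

variable {B : Type*} {M : CoxeterMatrix B} [Fintype B] [DecidableEq B]
variable {W : Type*} [Group W] {cs : CoxeterSystem M W}

lemma sigma_sum (wt : (B → ℝ) → ℕ) (hwt : ∀ (i : B) (β : B → ℝ), wt (sg M i β) = wt β)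
    (F : Finset (B → ℝ)) (i : B) (β : B → ℝ) : wt (sigma cs F i β) = wt β := by
  unfold sigma
  split_ifs
  · exact hwt i β
  · rfl

/-- **Weighted switching lemma.** -/
theorem switchW (wt : (B → ℝ) → ℕ) (hwt : ∀ (i : B) (β : B → ℝ), wt (sg M i β) = wt β)
    {x y : W} {i : B} (hx : geo cs x (ee i) ≤ 0) (hy : 0 ≤ geo cs y⁻¹ (ee i))
    {F : Finset (B → ℝ)} (hF : ∀ β ∈ F, β ∈ Nn cs x y) (hA : Anti cs F) :
    ∃ F' : Finset (B → ℝ), (∀ β ∈ F', β ∈ Nn cs x (cs.simple i * y)) ∧ Anti cs F' ∧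
      ∑ β ∈ F', wt β = ∑ β ∈ F, wt β + wt (ee i) := by
  classical
  have hYs : ∀ v, geo cs (cs.simple i * y)⁻¹ v = geo cs y⁻¹ (sg M i v) := by
    intro v
    rw [mul_inv_rev, cs.inv_simple, map_mul, Module.End.mul_apply, geo_simple]
  have hya : ¬ geo cs y⁻¹ (ee i) ≤ 0 := ((isRoot_ee i).geo _).not_nonpos hy
  have hneF : ∀ β ∈ F, β ≠ ee i := by
    rintro β hβ rfl
    exact hya (hF _ hβ).2.2.2
  have hroot : ∀ β ∈ F, IsRoot cs (sigma cs F i β) ∧ 0 ≤ sigma cs F i β := by
    intro β hβ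
    have hb := hF β hβ
    unfold sigma
    split_ifs
    · exact ⟨hb.1.sg i, hb.1.simple_pos hb.2.1 (hneF β hβ)⟩
    · exact ⟨hb.1, hb.2.1⟩
  have hmem : ∀ β ∈ F, sigma cs F i β ∈ Nn cs x (cs.simple i * y) := by
    intro β hβ
    refine ⟨(hroot β hβ).1, (hroot β hβ).2, ?_⟩
    rw [hYs]
    obtain ⟨hr, h0, hX, hY⟩ := hF β hβ
    unfold sigma
    split_ifs with hs
    · rw [sg_sg]
      refine ⟨?_, hY⟩
      rcases hs with hs | hs
      · rw [sg_apply, map_sub, map_smul]
        intro j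
        have h4 := hX j
        have h5 := hx j
        have h6 := hs.1
        simp only [Pi.sub_apply, Pi.smul_apply, smul_eq_mul, Pi.zero_apply] at h4 h5 ⊢
        nlinarith
      · obtain ⟨_, m, hm, _, hmd, _⟩ := hs
        exact hmd.sg' x (hF m hm).2.2.1
    · refine ⟨hX, ?_⟩
      rcases lt_trichotomy (coroot M i β) 0 with hb | hb | hb
      · have hU : ∃ p ∈ F, 0 < coroot M i p ∧ Dom cs p (sg M i β) := by
          by_contra hc
          exact hs (Or.inl ⟨hb, hc⟩)
        obtain ⟨p, hp, _, hpd⟩ := hU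
        exact hpd _ (hF p hp).2.2.2
      · rwa [sg_of_coroot_eq_zero hb]
      · rw [sg_apply, map_sub, map_smul]
        intro j
        have h4 := hY j
        have h5 := hy j
        simp only [Pi.sub_apply, Pi.smul_apply, smul_eq_mul, Pi.zero_apply] at h4 h5 ⊢
        nlinarith
  have hsne : ∀ β ∈ F, sigma cs F i β ≠ ee i := by
    intro β hβ h
    unfold sigma at h
    split_ifs at h
    · have h1 : β = - ee i := by
        rw [← sg_sg M i β, h, sg_ee_self]
      have h2 := (hF β hβ).2.1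
      rw [h1] at h2
      exact ((isRoot_ee (cs := cs) i)).not_nonpos (ee_nonneg i) (neg_nonneg.1 h2)
    · exact hneF β hβ h
  have hinj : Set.InjOn (sigma cs F i) F := by
    intro β hβ γ hγ h
    by_contra hne
    apply sigma_anti hA hβ hγ hne
    rw [h]
    exact Dom.refl _
  have hnm : ee i ∉ F.image (sigma cs F i) := by
    intro h
    obtain ⟨β, hβ, h1⟩ := Finset.mem_image.1 h
    exact hsne β hβ h1
  refine ⟨insert (ee i) (F.image (sigma cs F i)), ?_, ?_, ?_⟩
  · intro β hβ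
    rcases Finset.mem_insert.1 hβ with rfl | hβ
    · refine ⟨isRoot_ee i, ee_nonneg i, hx, ?_⟩
      rw [hYs, sg_ee_self, map_neg]
      exact neg_nonpos.2 hy
    · obtain ⟨γ, hγ, rfl⟩ := Finset.mem_image.1 hβ
      exact hmem γ hγ
  · -- antichain
    have h1 : ∀ β ∈ F, ¬ Dom cs (ee i) (sigma cs F i β) := by
      intro β hβ hd
      have h2 := hd (cs.simple i)
      rw [geo_simple, sg_ee_self] at h2
      have h3 := h2 (neg_nonpos.2 (ee_nonneg i))
      exact ((hroot β hβ).1.sg i).not_nonpos ((hroot β hβ).1.simple_pos (hroot β hβ).2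
        (hsne β hβ)) h3
    have h2 : ∀ β ∈ F, ¬ Dom cs (sigma cs F i β) (ee i) := by
      intro β hβ hd
      unfold sigma at hd
      split_ifs at hd
      · have h3 := hd.sg' x (hF β hβ).2.2.1
        rw [sg_ee_self, map_neg] at h3
        exact ((isRoot_ee i).geo x).not_nonpos (neg_nonpos.1 h3) hx
      · exact hya (hd _ (hF β hβ).2.2.2)
    intro β hβ γ hγ hne
    rcases Finset.mem_insert.1 hβ with rfl | hβ
    · rcases Finset.mem_insert.1 hγ with rfl | hγ
      · exact absurd rfl hne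
      · obtain ⟨γ', hγ', rfl⟩ := Finset.mem_image.1 hγ
        exact h1 γ' hγ'
    · obtain ⟨β', hβ', rfl⟩ := Finset.mem_image.1 hβ
      rcases Finset.mem_insert.1 hγ with rfl | hγ
      · exact h2 β' hβ'
      · obtain ⟨γ', hγ', rfl⟩ := Finset.mem_image.1 hγ
        apply sigma_anti hA hβ' hγ'
        rintro rfl
        exact hne rfl
  · rw [Finset.sum_insert hnm, Finset.sum_image hinj, add_comm]
    congr 1
    exact Finset.sum_congr rfl fun β _ => sigma_sum wt hwt F i β

theorem shiftW (wt : (B → ℝ) → ℕ) (hwt : ∀ (i : B) (β : B → ℝ), wt (sg M i β) = wt β)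
    {x y : W} {i : B} (hy : 0 ≤ geo cs y⁻¹ (ee i))
    {F : Finset (B → ℝ)} (hF : ∀ β ∈ F, β ∈ Nn cs (x * cs.simple i) y) (hA : Anti cs F) :
    ∃ F' : Finset (B → ℝ), (∀ β ∈ F', β ∈ Nn cs x (cs.simple i * y)) ∧ Anti cs F' ∧
      ∑ β ∈ F', wt β = ∑ β ∈ F, wt β := by
  classical
  have hinj : Function.Injective (sg M i) := fun u v h => by
    rw [← sg_sg M i u, h, sg_sg]
  have hya : ¬ geo cs y⁻¹ (ee i) ≤ 0 := ((isRoot_ee i).geo _).not_nonpos hy
  refine ⟨F.image (sg M i), ?_, ?_, ?_⟩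
  · intro β hβ
    obtain ⟨γ, hγ, rfl⟩ := Finset.mem_image.1 hβ
    obtain ⟨h1, h2, h3, h4⟩ := hF γ hγ
    refine ⟨h1.sg i, h1.simple_pos h2 ?_, ?_, ?_⟩
    · rintro rfl; exact hya h4
    · rw [map_mul, Module.End.mul_apply, geo_simple] at h3
      exact h3
    · rw [mul_inv_rev, cs.inv_simple, map_mul, Module.End.mul_apply, geo_simple, sg_sg]
      exact h4
  · intro β hβ γ hγ hne
    obtain ⟨β', hβ', rfl⟩ := Finset.mem_image.1 hβ
    obtain ⟨γ', hγ', rfl⟩ := Finset.mem_image.1 hγ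
    intro hd
    have := hd.sg i
    rw [sg_sg, sg_sg] at this
    exact hA β' hβ' γ' hγ' (fun h => hne (by rw [h])) this
  · rw [Finset.sum_image hinj.injOn]
    exact Finset.sum_congr rfl fun β _ => hwt i β

variable {Lw : W → ℕ} {f : W → W → W → LaurentPolynomial ℤ}

/-- **Degree bound by weights of antichains.** -/
theorem IsSC.dgW (h : IsSC cs Lw f) (wt : (B → ℝ) → ℕ)
    (hwt : ∀ (i : B) (β : B → ℝ), wt (sg M i β) = wt β) (hee : ∀ i, Lw (cs.simple i) ≤ wt (ee i)) :
    ∀ (n : ℕ) (x y : W) (k : ℕ), cs.length y = n →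
      (∀ F : Finset (B → ℝ), (∀ β ∈ F, β ∈ Nn cs x y) → Anti cs F → ∑ β ∈ F, wt β ≤ k) →
      ∀ z, Dg (f x y z) (k : ℤ) := by
  classical
  intro n
  induction n with
  | zero =>
    intro x y k hy _ z
    have hy1 : y = 1 := cs.length_eq_zero_iff.1 hy
    subst hy1
    by_cases hz : x = z
    · rw [(h.right_one _ x rfl z).1 hz]
      exact dg_one (by positivity)
    · rw [(h.right_one _ x rfl z).2 hz]
      exact dg_zero _
  | succ n ih =>
    intro x y k hy hF z
    have hy1 : y ≠ 1 := by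
      rintro rfl
      rw [cs.length_one] at hy
      omega
    obtain ⟨i, hi⟩ := cs.exists_leftDescent_of_ne_one hy1
    have hi' : cs.length (cs.simple i * y) + 1 = cs.length y := cs.isLeftDescent_iff.mp hi
    obtain ⟨y', hy'⟩ : ∃ y', y' = cs.simple i * y := ⟨_, rfl⟩
    rw [← hy'] at hi'
    have hyy : y = cs.simple i * y' := by rw [hy', cs.simple_mul_simple_cancel_left]
    have h6 : cs.length y' < cs.length (cs.simple i * y') := by rw [← hyy]; omega
    have hpos : 0 ≤ geo cs y'⁻¹ (ee i) := by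
      apply geo_nonneg
      have e : y'⁻¹ * cs.simple i = (cs.simple i * y')⁻¹ := by rw [mul_inv_rev, cs.inv_simple]
      rw [e, cs.length_inv, cs.length_inv]
      exact h6
    rw [hyy] at hF ⊢
    have hb : ∀ F : Finset (B → ℝ), (∀ β ∈ F, β ∈ Nn cs (x * cs.simple i) y') → Anti cs F →
        ∑ β ∈ F, wt β ≤ k := by
      intro F hF1 hF2
      obtain ⟨F', h1, h2, h3⟩ := shiftW wt hwt hpos hF1 hF2
      rw [← h3]
      exact hF F' h1 h2
    rcases cs.length_mul_simple x i with hx | hx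
    · rw [h.R1 h6 _ x rfl (by omega)]
      exact ih _ _ k (by omega) hb z
    · have hx2 : x = x * cs.simple i * cs.simple i := by rw [cs.simple_mul_simple_cancel_right]
      have hxneg : geo cs x (ee i) ≤ 0 := geo_nonpos cs x i (by omega)
      have hb' : ∀ F : Finset (B → ℝ), (∀ β ∈ F, β ∈ Nn cs x y') → Anti cs F →
          ∑ β ∈ F, wt β + wt (ee i) ≤ k := by
        intro F hF1 hF2
        obtain ⟨F', h1, h2, h3⟩ := switchW wt hwt hxneg hpos hF1 hF2
        rw [← h3]
        exact hF F' h1 h2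
      have hk : wt (ee i) ≤ k := by
        have := hb' ∅ (by simp) (by intro β hβ; simp at hβ)
        simpa using this
      obtain ⟨k', rfl⟩ : ∃ k', k = k' + wt (ee i) := ⟨k - wt (ee i), by omega⟩
      have hb'' : ∀ F : Finset (B → ℝ), (∀ β ∈ F, β ∈ Nn cs x y') → Anti cs F →
          ∑ β ∈ F, wt β ≤ k' := by
        intro F hF1 hF2
        have := hb' F hF1 hF2
        omega
      have e := h.R2 h6 _ (x * cs.simple i) rfl (by
        rw [cs.simple_mul_simple_cancel_right]; omega) z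
      rw [← hx2] at e
      rw [e]
      apply Dg.add
      · exact ih _ _ _ (by omega) hb z
      · have h7 := (ih x y' k' (by omega) hb'' z).xi_mul (Lw (cs.simple i))
        apply h7.mono
        have := hee i
        push_cast
        omega

/-! ### the weight of a root -/

open Classical in
/-- simple roots in the orbit of `β` -/
noncomputable def ty (cs : CoxeterSystem M W) (β : B → ℝ) : Finset B :=
  Finset.univ.filter (fun i => ∃ w : W, β = geo cs w (ee i))

/-- weight of a root -/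
noncomputable def rw' (cs : CoxeterSystem M W) (Lw : W → ℕ) (β : B → ℝ) : ℕ :=
  (ty cs β).sup (fun i => Lw (cs.simple i))

lemma ty_sg (i : B) (β : B → ℝ) : ty cs (sg M i β) = ty cs β := by
  classical
  ext j
  simp only [ty, Finset.mem_filter, Finset.mem_univ, true_and]
  constructor
  · rintro ⟨w, hw⟩
    refine ⟨cs.simple i * w, ?_⟩
    rw [map_mul, Module.End.mul_apply, geo_simple, ← hw, sg_sg]
  · rintro ⟨w, hw⟩
    refine ⟨cs.simple i * w, ?_⟩
    rw [map_mul, Module.End.mul_apply, geo_simple, ← hw]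

lemma rw'_sg (Lw : W → ℕ) (i : B) (β : B → ℝ) : rw' cs Lw (sg M i β) = rw' cs Lw β := by
  unfold rw'
  rw [ty_sg]

lemma le_rw'_ee (Lw : W → ℕ) (i : B) : Lw (cs.simple i) ≤ rw' cs Lw (ee i) := by
  classical
  unfold rw'
  apply Finset.le_sup (f := fun i => Lw (cs.simple i))
  simp only [ty, Finset.mem_filter, Finset.mem_univ, true_and]
  exact ⟨1, by simp⟩

/-- the weight of a root is the weight of a simple root in its orbit -/
lemma rw'_attained (Lw : W → ℕ) {β : B → ℝ} (hβ : IsRoot cs β) :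
    ∃ (i : B) (w : W), β = geo cs w (ee i) ∧ rw' cs Lw β = Lw (cs.simple i) := by
  classical
  have hne : (ty cs β).Nonempty := by
    obtain ⟨w, i, h⟩ := hβ
    refine ⟨i, ?_⟩
    simp only [ty, Finset.mem_filter, Finset.mem_univ, true_and]
    exact ⟨w, h⟩
  obtain ⟨i, hi, h⟩ := Finset.exists_mem_eq_sup _ hne (fun i => Lw (cs.simple i))
  simp only [ty, Finset.mem_filter, Finset.mem_univ, true_and] at hi
  obtain ⟨w, hw⟩ := hi
  exact ⟨i, w, hw, h⟩

/-! ### reflections and inversions -/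

lemma geo_eq {u v : W} (h : ∀ z, geo cs u z = geo cs v z) : u = v :=
  geo_injective cs (LinearMap.ext h)

lemma inv_word : ∀ (ω : List B) (β : B → ℝ) (t : W), β ∈ Inv cs (cs.wordProd ω) →
    (∀ v, geo cs t v = v - bf M β v • β) →
    ∃ ω' : List B, ω'.length < ω.length ∧ cs.wordProd ω * t = cs.wordProd ω' := by
  intro ω
  induction ω using List.reverseRecOn with
  | nil =>
    rintro β t ⟨h, h0, h1⟩ _
    simp only [wordProd_nil, map_one, Module.End.one_apply] at h1
    exact absurd h1 (h.not_nonpos h0)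
  | append_singleton ω i ih =>
    rintro β t ⟨h, h0, h1⟩ ht
    rw [cs.wordProd_append, cs.wordProd_singleton]
    by_cases hb : β = ee i
    · subst hb
      refine ⟨ω, by simp, ?_⟩
      have : t = cs.simple i := by
        apply geo_eq (cs := cs)
        intro v
        rw [ht, geo_simple, sg_apply, bf_ee]
      rw [this, cs.simple_mul_simple_cancel_right]
    · obtain ⟨ω', hl, he⟩ := ih (sg M i β) (cs.simple i * t * cs.simple i) ⟨h.sg i,
        h.simple_pos h0 hb, by
          rw [cs.wordProd_append, map_mul, Module.End.mul_apply, cs.wordProd_singleton,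
            geo_simple] at h1
          exact h1⟩ (by
          intro v
          rw [map_mul, map_mul, Module.End.mul_apply, Module.End.mul_apply, geo_simple, ht,
            map_sub, sg_sg, map_smul]
          congr 2
          rw [← bf_sg i β (sg M i v), sg_sg])
      refine ⟨ω' ++ [i], by simp; omega, ?_⟩
      rw [cs.wordProd_append, cs.wordProd_singleton, ← he]
      simp only [mul_assoc, cs.simple_mul_simple_self, mul_one]

lemma length_of_inv {x : W} {β : B → ℝ} {t : W} (hβ : β ∈ Inv cs x)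
    (ht : ∀ v, geo cs t v = v - bf M β v • β) : cs.length (x * t) < cs.length x := by
  obtain ⟨ω, hω, rfl⟩ := cs.exists_isReduced x
  obtain ⟨ω', hl, he⟩ := inv_word ω β t hβ ht
  rw [he]
  have h1 : cs.length (cs.wordProd ω) = ω.length := hω
  have h2 := cs.length_wordProd_le ω'
  omega

/-- the reflection of a root, as a conjugate of a simple reflection -/
lemma refl_conj {w : W} {i : B} {β : B → ℝ} (h : β = geo cs w (ee i)) (v : B → ℝ) :
    geo cs (w * cs.simple i * w⁻¹) v = v - bf M β v • β := by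
  subst h
  have h1 : bf M (geo cs w (ee i)) v = bf M (ee i) (geo cs w⁻¹ v) := by
    conv_lhs => rw [← geo_apply_inv cs w v]
    rw [bf_geo]
  rw [map_mul, map_mul, Module.End.mul_apply, Module.End.mul_apply, geo_simple, sg_apply, map_sub,
    geo_apply_inv, map_smul, h1, bf_ee]

/-- different positive roots have different reflections -/
lemma refl_inj {β γ : B → ℝ} {t : W} (hβ : IsRoot cs β) (hγ : IsRoot cs γ) (h0 : 0 ≤ β) (h0' : 0 ≤ γ)
    (h : ∀ v, geo cs t v = v - bf M β v • β) (h' : ∀ v, geo cs t v = v - bf M γ v • γ) : β = γ := by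
  have e := h β
  rw [h' β, hβ.bf_self] at e
  have e2 : (2 : ℝ) • β = bf M γ β • γ := by
    have : (2 : ℝ) • β = β - (β - (2 : ℝ) • β) := by abel
    rw [this, ← e]; abel
  obtain ⟨c, hc⟩ : ∃ c : ℝ, β = c • γ := by
    refine ⟨(1 / 2) * bf M γ β, ?_⟩
    rw [← smul_smul, ← e2, smul_smul]
    norm_num
  have h1 := hβ.bf_self
  rw [hc] at h1
  simp only [map_smul, LinearMap.smul_apply, smul_eq_mul, hγ.bf_self] at h1
  have h2 : (c - 1) * (c + 1) = 0 := by nlinarith
  rcases mul_eq_zero.1 h2 with h3 | h3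
  · have : c = 1 := by linarith
    rw [hc, this, one_smul]
  · exfalso
    have h4 : c = -1 := by linarith
    rw [hc, h4] at h0
    apply hγ.not_nonpos h0'
    intro j
    have h5 := h0 j
    simp only [Pi.zero_apply, Pi.smul_apply, smul_eq_mul] at h5 ⊢
    linarith

/-- **Bound of the degree by the weight of a crossing family of walls.** -/
theorem IsSC.crossing (h : IsSC cs Lw f) (x y : W) :
    ∃ (F : Finset W) (g : W → ℕ),
      (∀ t ∈ F, (∃ i : B, IsConj (cs.simple i) t ∧ g t = Lw (cs.simple i)) ∧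
        cs.length (x * t) < cs.length x ∧ cs.length (t * y) < cs.length y) ∧
      (∀ t ∈ F, ∀ t' ∈ F, IsOfFinOrder (t * t')) ∧
      ∀ z, Dg (f x y z) ((∑ t ∈ F, g t : ℕ) : ℤ) := by
  classical
  -- choose an antichain of maximal weight
  obtain ⟨k, hk⟩ : ∃ k : ℕ, ∀ F : Finset (B → ℝ), (∀ β ∈ F, β ∈ Nn cs x y) → Anti cs F →
      ∑ β ∈ F, rw' cs Lw β ≤ k := by
    have hfin : (Nn cs x y).Finite := (inv_finite x).subset fun β hβ => ⟨hβ.1, hβ.2.1, hβ.2.2.1⟩
    refine ⟨∑ β ∈ hfin.toFinset, rw' cs Lw β, fun F hF _ => ?_⟩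
    apply Finset.sum_le_sum_of_subset
    intro β hβ
    rw [Set.Finite.mem_toFinset]
    exact hF β hβ
  let S : Set ℕ := {n | ∃ F : Finset (B → ℝ), (∀ β ∈ F, β ∈ Nn cs x y) ∧ Anti cs F ∧
    ∑ β ∈ F, rw' cs Lw β = n}
  have hS : S.Nonempty := ⟨0, ∅, by simp, by intro β hβ; simp at hβ, by simp⟩
  have hSb : BddAbove S := ⟨k, by rintro n ⟨F, h1, h2, rfl⟩; exact hk F h1 h2⟩
  obtain ⟨F, hF1, hF2, hF3⟩ : sSup S ∈ S := Nat.sSup_mem hS hSb
  have hdeg := h.dgW (rw' cs Lw) (rw'_sg Lw) (le_rw'_ee Lw) _ x y (sSup S) rfl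
    (fun F' h1 h2 => le_csSup hSb ⟨F', h1, h2, rfl⟩)
  -- the reflections
  have hch : ∀ β : B → ℝ, ∃ t : W, β ∈ F → (∃ i : B, IsConj (cs.simple i) t ∧
      rw' cs Lw β = Lw (cs.simple i)) ∧ ∀ v, geo cs t v = v - bf M β v • β := by
    intro β
    by_cases hβ : β ∈ F
    · obtain ⟨i, w, h1, h2⟩ := rw'_attained (cs := cs) Lw (hF1 β hβ).1
      refine ⟨w * cs.simple i * w⁻¹, fun _ => ⟨⟨i, ?_, h2⟩, refl_conj h1⟩⟩
      exact isConj_iff.2 ⟨w, rfl⟩
    · exact ⟨1, fun h => absurd h hβ⟩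
  choose φ hφ using hch
  have hinj : Set.InjOn φ F := by
    intro β hβ γ hγ he
    refine refl_inj (t := φ β) (hF1 β hβ).1 (hF1 γ hγ).1 (hF1 β hβ).2.1 (hF1 γ hγ).2.1
      (hφ β hβ).2 ?_
    rw [he]
    exact (hφ γ hγ).2
  obtain ⟨g, hg⟩ : ∃ g : W → ℕ, ∀ β ∈ F, g (φ β) = rw' cs Lw β := by
    refine ⟨fun t => if h : ∃ β ∈ F, φ β = t then rw' cs Lw h.choose else 0, fun β hβ => ?_⟩
    have hex : ∃ γ ∈ F, φ γ = φ β := ⟨β, hβ, rfl⟩
    simp only [dif_pos hex]
    rw [hinj hex.choose_spec.1 hβ hex.choose_spec.2]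
  refine ⟨F.image φ, g, ?_, ?_, ?_⟩
  · intro t ht
    obtain ⟨β, hβ, rfl⟩ := Finset.mem_image.1 ht
    obtain ⟨⟨i, h1, h2⟩, h3⟩ := hφ β hβ
    obtain ⟨b1, b2, b3, b4⟩ := hF1 β hβ
    refine ⟨⟨i, h1, by rw [hg β hβ, h2]⟩, length_of_inv ⟨b1, b2, b3⟩ h3, ?_⟩
    have h4 := length_of_inv (cs := cs) (x := y⁻¹) ⟨b1, b2, b4⟩ h3
    obtain ⟨w, hw⟩ := isConj_iff.1 h1
    have h5 : (φ β)⁻¹ = φ β := by
      rw [← hw]
      simp [mul_assoc]
    rw [cs.length_inv, ← cs.length_inv (y⁻¹ * φ β), mul_inv_rev, inv_inv, h5] at h4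
    exact h4
  · intro t ht t' ht'
    obtain ⟨β, hβ, rfl⟩ := Finset.mem_image.1 ht
    obtain ⟨γ, hγ, rfl⟩ := Finset.mem_image.1 ht'
    by_cases hbg : β = γ
    · subst hbg
      obtain ⟨⟨i, h1, _⟩, _⟩ := hφ β hβ
      obtain ⟨w, hw⟩ := isConj_iff.1 h1
      have : φ β * φ β = 1 := by
        rw [← hw]
        simp [mul_assoc]
      rw [this]
      exact IsOfFinOrder.one
    · have hβI : β ∈ Inv cs x := ⟨(hF1 β hβ).1, (hF1 β hβ).2.1, (hF1 β hβ).2.2.1⟩
      have hγI : γ ∈ Inv cs x := ⟨(hF1 γ hγ).1, (hF1 γ hγ).2.1, (hF1 γ hγ).2.2.1⟩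
      have h1 : -2 < bf M β γ := neg_two_lt hβI hγI
      have h2 : bf M β γ < 2 := by
        by_contra hc
        push Not at hc
        rcases dom_of_two_le hβI.1 hγI.1 hc with h3 | h3
        · exact hF2 β hβ γ hγ hbg h3
        · exact hF2 γ hγ β hβ (Ne.symm hbg) h3
      obtain ⟨k', hk', hck⟩ := rot_finite hβI.1 hγI.1 h1 h2 (c := φ β * φ γ) (by
        intro v
        rw [map_mul, Module.End.mul_apply, (hφ γ hγ).2, (hφ β hβ).2])
      exact isOfFinOrder_iff_pow_eq_one.2 ⟨k', hk', hck⟩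
  · intro z
    have e : ∑ t ∈ F.image φ, g t = sSup S := by
      rw [Finset.sum_image hinj, ← hF3]
      exact Finset.sum_congr rfl hg
    rw [e]
    exact hdeg z

end Pool.Agent.TH5.BD
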