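import Mathlib
import Pool.Agent.TH5.BD.Dihedral

set_option autoImplicit false
set_option linter.unusedSectionVars false

/-!
# Standard parabolic subgroups and minimal coset representatives
-/

namespace Pool.Agent.TH5.BD

open CoxeterSystem Pool.Agent.Helper703.Cox

variable {B : Type*} {M : CoxeterMatrix B} {W : Type*} [Group W] (cs : CoxeterSystem M W)

/-- the standard parabolic subgroup `W_J` -/
def Par (J : Set B) : Subgroup W := Subgroup.closure (cs.simple '' J)

/-- `x` is minimal in `x W_J` -/
def RMin (J : Set B) (x : W) : Prop := ∀ i ∈ J, cs.length x < cs.length (x * cs.simple i)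

/-- `x` is minimal in `W_J x` -/
def LMin (J : Set B) (x : W) : Prop := ∀ i ∈ J, cs.length x < cs.length (cs.simple i * x)

variable {cs}

lemma lmin_iff {J : Set B} {x : W} : LMin cs J x ↔ RMin cs J x⁻¹ := by
  unfold LMin RMin
  refine forall₂_congr fun i _ => ?_
  rw [cs.length_inv, ← cs.length_inv (cs.simple i * x), mul_inv_rev, cs.inv_simple]

lemma rmin_iff {J : Set B} {x : W} : RMin cs J x ↔ LMin cs J x⁻¹ := by
  rw [lmin_iff, inv_inv]

lemma simple_mem_par {J : Set B} {i : B} (h : i ∈ J) : cs.simple i ∈ Par cs J :=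
  Subgroup.subset_closure ⟨i, h, rfl⟩

lemma par_mono {J K : Set B} (h : J ⊆ K) : Par cs J ≤ Par cs K :=
  Subgroup.closure_mono (Set.image_mono h)

lemma RMin.mono {J K : Set B} {x : W} (h : RMin cs K x) (hJ : J ⊆ K) : RMin cs J x :=
  fun i hi => h i (hJ hi)

lemma LMin.mono {J K : Set B} {x : W} (h : LMin cs K x) (hJ : J ⊆ K) : LMin cs J x :=
  fun i hi => h i (hJ hi)

lemma rlen_cases (i : B) (w : W) : cs.length w < cs.length (w * cs.simple i) ∨
    cs.length (w * cs.simple i) < cs.length w := by
  rcases cs.length_mul_simple w i with h | h <;> omega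

/-- right decomposition -/
lemma exists_rdec (J : Set B) : ∀ (n : ℕ) (x : W), cs.length x = n →
    ∃ x' a, x = x' * a ∧ RMin cs J x' ∧ a ∈ Par cs J ∧
      cs.length x = cs.length x' + cs.length a := by
  intro n
  induction n using Nat.strong_induction_on with
  | _ n ih =>
    intro x hx
    by_cases h : RMin cs J x
    · exact ⟨x, 1, by simp, h, Subgroup.one_mem _, by simp⟩
    unfold RMin at h
    push Not at h
    obtain ⟨i, hi, hle⟩ := h
    have h1 : cs.length (x * cs.simple i) + 1 = cs.length x := by
      rcases cs.length_mul_simple x i with h | h <;> omega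
    obtain ⟨x', a, e, hm, ha, hl⟩ := ih (cs.length (x * cs.simple i)) (by omega)
      (x * cs.simple i) rfl
    have e2 : x = x' * (a * cs.simple i) := by
      rw [← mul_assoc, ← e, cs.simple_mul_simple_cancel_right]
    refine ⟨x', a * cs.simple i, e2, hm, Subgroup.mul_mem _ ha (simple_mem_par hi), ?_⟩
    have h2 := cs.length_mul_le x' (a * cs.simple i)
    rw [← e2] at h2
    have h3 := cs.length_mul_le a (cs.simple i)
    rw [cs.length_simple] at h3
    omega

/-- left decomposition -/
lemma exists_ldec (J : Set B) (x : W) :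
    ∃ a x', x = a * x' ∧ LMin cs J x' ∧ a ∈ Par cs J ∧
      cs.length x = cs.length a + cs.length x' := by
  obtain ⟨x', a, e, hm, ha, hl⟩ := exists_rdec (cs := cs) J _ x⁻¹ rfl
  refine ⟨a⁻¹, x'⁻¹, ?_, rmin_iff.1 hm, Subgroup.inv_mem _ ha, ?_⟩
  · rw [← mul_inv_rev, ← e, inv_inv]
  · rw [cs.length_inv, cs.length_inv, add_comm, ← hl, cs.length_inv]

section geo

variable [Fintype B] [DecidableEq B]

lemma par_geo {J : Set B} {w : W} (hw : w ∈ Par cs J) :
    ∀ (v : B → ℝ) (j : B), j ∉ J → geo cs w v j = v j := by
  unfold Par at hw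
  induction hw using Subgroup.closure_induction with
  | mem x hx =>
    obtain ⟨i, hi, rfl⟩ := hx
    intro v j hj
    rw [geo_simple, sg_apply]
    have : j ≠ i := by rintro rfl; exact hj hi
    simp [ee, this]
  | one => intro v j _; simp
  | mul x y _ _ hx hy =>
    intro v j hj
    rw [map_mul, Module.End.mul_apply, hx _ j hj, hy _ j hj]
  | inv x _ hx =>
    intro v j hj
    have h1 := hx (geo cs x⁻¹ v) j hj
    rw [← h1, geo_apply_inv cs x v]

/-- a nonnegative vector supported in `J` stays nonnegative -/
lemma RMin.geo_nonneg {J : Set B} {x : W} (hx : RMin cs J x) {v : B → ℝ} (h0 : 0 ≤ v)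
    (hv : ∀ j, j ∉ J → v j = 0) : 0 ≤ geo cs x v := by
  have e : v = ∑ i, v i • (ee i : B → ℝ) := by
    funext j
    simp [ee, Finset.sum_apply, Pi.single_apply]
  rw [e, map_sum]
  refine Finset.sum_nonneg fun i _ => ?_
  rw [map_smul]
  by_cases hi : i ∈ J
  · exact smul_nonneg (h0 i) (Pool.Agent.Helper703.Cox.geo_nonneg cs x i (hx i hi))
  · rw [hv i hi, zero_smul]

/-- a nontrivial element of `W_J` has a right descent in `J` -/
lemma par_rdescent {J : Set B} {c : W} (hc : c ∈ Par cs J) (h1 : c ≠ 1) :
    ∃ i ∈ J, cs.length (c * cs.simple i) < cs.length c := by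
  by_contra hcon
  push Not at hcon
  apply h1
  apply eq_one_of_geo cs
  intro i
  by_cases hi : i ∈ J
  · apply Pool.Agent.Helper703.Cox.geo_nonneg
    have := hcon i hi
    rcases rlen_cases (cs := cs) i c with h | h
    · exact h
    · omega
  · have h2 := par_geo hc (ee i) i hi
    rcases ((isRoot_ee (cs := cs) i).geo c).sign with h3 | h3
    · exact h3
    · exfalso
      have h4 := h3 i
      rw [h2] at h4
      simp [ee] at h4
      linarith

lemma par_ldescent {J : Set B} {c : W} (hc : c ∈ Par cs J) (h1 : c ≠ 1) :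
    ∃ i ∈ J, cs.length (cs.simple i * c) < cs.length c := by
  obtain ⟨i, hi, h⟩ := par_rdescent (Subgroup.inv_mem _ hc) (inv_ne_one.2 h1)
  refine ⟨i, hi, ?_⟩
  rw [cs.length_inv, ← cs.length_inv (c⁻¹ * cs.simple i), mul_inv_rev, inv_inv, cs.inv_simple] at h
  exact h

/-- descents of an element of `W_J` lie in `J` -/
lemma par_rdescent_mem {J : Set B} {c : W} (hc : c ∈ Par cs J) {i : B}
    (h : cs.length (c * cs.simple i) < cs.length c) : i ∈ J := by
  by_contra hi
  have h2 := par_geo hc (ee i) i hi
  have h3 := geo_nonpos cs c i h i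
  rw [h2] at h3
  simp [ee] at h3
  linarith

lemma par_ldescent_mem {J : Set B} {c : W} (hc : c ∈ Par cs J) {i : B}
    (h : cs.length (cs.simple i * c) < cs.length c) : i ∈ J := by
  apply par_rdescent_mem (Subgroup.inv_mem _ hc)
  rw [cs.length_inv, ← cs.length_inv (c⁻¹ * cs.simple i), mul_inv_rev, inv_inv, cs.inv_simple]
  exact h

/-- lengths add for a minimal coset representative -/
lemma RMin.length_mul {J : Set B} {x : W} (hx : RMin cs J x) : ∀ (n : ℕ) (c : W),
    cs.length c = n → c ∈ Par cs J → cs.length (x * c) = cs.length x + cs.length c := by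
  intro n
  induction n with
  | zero =>
    intro c hc _
    rw [cs.length_eq_zero_iff] at hc
    subst hc
    simp
  | succ n ih =>
    intro c hc hcJ
    have h1 : c ≠ 1 := by
      rintro rfl
      rw [cs.length_one] at hc
      omega
    obtain ⟨i, hi, h⟩ := par_rdescent hcJ h1
    obtain ⟨c', hc'⟩ : ∃ c', c' = c * cs.simple i := ⟨_, rfl⟩
    have e : c = c' * cs.simple i := by rw [hc', cs.simple_mul_simple_cancel_right]
    rw [← hc'] at h
    have hc'J : c' ∈ Par cs J := by
      rw [hc']; exact Subgroup.mul_mem _ hcJ (simple_mem_par hi)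
    have hl : cs.length c = cs.length c' + 1 := by
      rw [e] at h ⊢
      rcases cs.length_mul_simple c' i with h | h <;> omega
    have ih' := ih c' (by omega) hc'J
    have h2 : 0 ≤ geo cs c' (ee i) := by
      apply Pool.Agent.Helper703.Cox.geo_nonneg
      rw [← e]; exact h
    have h3 : ∀ j, j ∉ J → geo cs c' (ee i) j = 0 := by
      intro j hj
      rw [par_geo hc'J _ j hj]
      have : j ≠ i := by rintro rfl; exact hj hi
      simp [ee, this]
    have h4 : 0 ≤ geo cs (x * c') (ee i) := by
      rw [map_mul, Module.End.mul_apply]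
      exact hx.geo_nonneg h2 h3
    have h5 := (geo_nonneg_iff cs (x * c') i).1 h4
    rw [e, ← mul_assoc]
    rw [e] at hl
    rcases cs.length_mul_simple (x * c') i with h | h <;> omega

lemma RMin.mul {J : Set B} {x : W} (hx : RMin cs J x) {c : W} (hc : c ∈ Par cs J) :
    cs.length (x * c) = cs.length x + cs.length c := hx.length_mul _ c rfl hc

lemma LMin.mul {J : Set B} {x : W} (hx : LMin cs J x) {c : W} (hc : c ∈ Par cs J) :
    cs.length (c * x) = cs.length c + cs.length x := by
  have := (lmin_iff.1 hx).mul (Subgroup.inv_mem _ hc)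
  rw [← mul_inv_rev, cs.length_inv, cs.length_inv, cs.length_inv] at this
  omega

/-- two right descents generate a finite group -/
lemma not_two_descents {i j : B} (hij : M i j = 0) {w : W}
    (hi : cs.length (w * cs.simple i) < cs.length w)
    (hj : cs.length (w * cs.simple j) < cs.length w) : False := by
  have h := neg_two_lt (cs := cs) (β := ee i) (γ := ee j) (w := w)
    ⟨isRoot_ee i, ee_nonneg i, geo_nonpos cs w i hi⟩ ⟨isRoot_ee j, ee_nonneg j, geo_nonpos cs w j hj⟩
  rw [bf_ee, coroot_ee, cc_of_zero M hij] at h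
  norm_num at h

/-- **Additivity of lengths across an edge labelled `∞`.** -/
lemma length_sandwich : ∀ (n : ℕ) (K : Set B) (i j : B), i ∈ K → j ∈ K → M i j = 0 →
    ∀ x c y : W, cs.length y = n → x ∈ Par cs K → y ∈ Par cs K →
      RMin cs (K \ {j}) x → c ∈ Par cs (K \ {j}) → c ∉ Par cs (K \ {i, j}) →
      LMin cs (K \ {j}) y →
      cs.length (x * c * y) = cs.length x + cs.length c + cs.length y := by
  intro n
  induction n using Nat.strong_induction_on with
  | _ n ih =>
    intro K i j hi hj hij x c y hy hxK hyK hx hc hc3 hy1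
    have hne : i ≠ j := by
      rintro rfl
      rw [M.diagonal] at hij
      exact one_ne_zero hij
    have hJ31 : K \ {i, j} ⊆ K \ {j} := by
      rintro k ⟨hk, hk2⟩
      refine ⟨hk, fun h => hk2 ?_⟩
      rw [Set.mem_singleton_iff] at h
      rw [h]; simp
    have hJ32 : K \ {i, j} ⊆ K \ {i} := by
      rintro k ⟨hk, hk2⟩
      refine ⟨hk, fun h => hk2 ?_⟩
      rw [Set.mem_singleton_iff] at h
      rw [h]; simp
    by_cases hy0 : y = 1
    · subst hy0
      rw [mul_one, hx.mul hc, cs.length_one, add_zero]
    obtain ⟨c', v, e, hc'm, hv, hcl⟩ := exists_rdec (cs := cs) (K \ {i, j}) _ c rfl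
    have hc'1 : c' ∈ Par cs (K \ {j}) := by
      have : c' = c * v⁻¹ := by rw [e]; group
      rw [this]
      exact Subgroup.mul_mem _ hc (Subgroup.inv_mem _ (par_mono hJ31 hv))
    have hc'ne : c' ≠ 1 := by
      rintro rfl
      rw [one_mul] at e
      exact hc3 (e ▸ hv)
    obtain ⟨k, hk, hkd⟩ := par_rdescent hc'1 hc'ne
    have hki : k = i := by
      by_contra hcon
      have : k ∈ K \ {i, j} := by
        refine ⟨hk.1, ?_⟩
        simp only [Set.mem_insert_iff, Set.mem_singleton_iff, not_or]
        exact ⟨hcon, fun h => hk.2 h⟩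
      have := hc'm k this
      omega
    subst hki
    have hxc' : cs.length (x * c') = cs.length x + cs.length c' := hx.mul hc'1
    -- `x c'` is minimal for `K \ {i}`
    have hmin : RMin cs (K \ {k}) (x * c') := by
      intro l hl
      by_cases hlj : l = j
      · subst hlj
        rcases rlen_cases (cs := cs) l (x * c') with h | h
        · exact h
        · exfalso
          apply not_two_descents (cs := cs) hij (w := x * c') _ h
          rw [mul_assoc, hx.mul (Subgroup.mul_mem _ hc'1 (simple_mem_par hk)), hxc']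
          omega
      · have hl3 : l ∈ K \ {k, j} := by
          refine ⟨hl.1, ?_⟩
          simp only [Set.mem_insert_iff, Set.mem_singleton_iff, not_or]
          exact ⟨fun h => hl.2 h, hlj⟩
        rw [mul_assoc, hx.mul (Subgroup.mul_mem _ hc'1 (simple_mem_par (hJ31 hl3))), hxc']
        have := hc'm l hl3
        omega
    -- decompose `y`
    obtain ⟨b, y', ey, hy'm, hb, hyl⟩ := exists_ldec (cs := cs) (K \ {k}) y
    have hy3 : LMin cs (K \ {k, j}) y := hy1.mono hJ31
    have hbm : LMin cs (K \ {k, j}) b := by
      intro l hl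
      rcases cs.length_simple_mul b l with h | h
      · omega
      · exfalso
        have h1 := hy3 l hl
        rw [ey, ← mul_assoc] at h1
        have h2 := cs.length_mul_le (cs.simple l * b) y'
        rw [← ey] at h1
        omega
    have hy'K : y' ∈ Par cs K := by
      have : y' = b⁻¹ * y := by rw [ey]; group
      rw [this]
      exact Subgroup.mul_mem _ (Subgroup.inv_mem _ (par_mono Set.sdiff_subset hb)) hyK
    have hbne : b ≠ 1 := by
      rintro rfl
      rw [one_mul] at ey
      obtain ⟨l, hl, hld⟩ := par_ldescent hyK hy0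
      by_cases hlj : l ∈ K \ {j}
      · have := hy1 l hlj
        omega
      · have : l = j := by
          by_contra h
          exact hlj ⟨hl, h⟩
        subst this
        have h1 := hy'm l ⟨hl, fun h => hne (by rw [Set.mem_singleton_iff] at h; exact h.symm)⟩
        rw [← ey] at h1
        omega
    have hb3 : b ∉ Par cs (K \ {k, j}) := by
      intro h
      obtain ⟨l, hl, hld⟩ := par_ldescent h hbne
      have := hbm l hl
      omega
    have hvb : v * b ∈ Par cs (K \ {k}) := Subgroup.mul_mem _ (par_mono hJ32 hv) hb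
    have hvb3 : v * b ∉ Par cs (K \ {j, k}) := by
      intro h
      apply hb3
      rw [Set.pair_comm] at h
      have := Subgroup.mul_mem _ (Subgroup.inv_mem _ hv) h
      rwa [← mul_assoc, inv_mul_cancel, one_mul] at this
    have hbl : 0 < cs.length b := by
      rcases Nat.eq_zero_or_pos (cs.length b) with h | h
      · exact absurd (cs.length_eq_zero_iff.1 h) hbne
      · exact h
    have key := ih (cs.length y') (by omega) K j k hj hi (by rw [M.symmetric]; exact hij)
      (x * c') (v * b) y' rfl (Subgroup.mul_mem _ hxK (par_mono Set.sdiff_subset hc'1)) hy'K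
      hmin hvb hvb3 hy'm
    have e2 : x * c * y = x * c' * (v * b) * y' := by rw [e, ey]; group
    rw [e2, key, hxc', hbm.mul hv, hcl, hyl]
    omega

end geo

end Pool.Agent.TH5.BD
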