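import Mathlib
import Pool.Agent.TH5.BD.Hecke
import Pool.Agent.TH5.BD.Para

set_option autoImplicit false
set_option linter.unusedSectionVars false

/-!
# Reduction of degree bounds to 2-spherical parabolic subgroups
-/

namespace Pool.Agent.TH5.BD

open CoxeterSystem Module

variable {B : Type*} {M : CoxeterMatrix B} {W : Type*} [Group W] {cs : CoxeterSystem M W}
variable {H : Type*} [Ring H] [Algebra A H] {L : W → ℤ} {T : Basis W A H}

/-- the trace: product of two basis elements -/
lemma IsHecke.tau (hT : IsHecke cs L T) : ∀ (n : ℕ) (x : W), cs.length x = n → ∀ y,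
    (x * y = 1 → T.repr (T x * T y) 1 = 1) ∧ (x * y ≠ 1 → T.repr (T x * T y) 1 = 0) := by
  classical
  intro n
  induction n with
  | zero =>
    intro x hx y
    rw [cs.length_eq_zero_iff] at hx
    subst hx
    rw [hT.one, one_mul, one_mul, Basis.repr_self, Finsupp.single_apply]
    exact ⟨fun h => by rw [if_pos h], fun h => by rw [if_neg h]⟩
  | succ n ih =>
    intro x hx y
    have hx1 : x ≠ 1 := by
      rintro rfl
      rw [cs.length_one] at hx
      omega
    obtain ⟨i, hi⟩ := cs.exists_rightDescent_of_ne_one hx1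
    have hi' : cs.length (x * cs.simple i) + 1 = cs.length x := cs.isRightDescent_iff.mp hi
    obtain ⟨x', hx'⟩ : ∃ x', x' = x * cs.simple i := ⟨_, rfl⟩
    have e : x = x' * cs.simple i := by rw [hx', cs.simple_mul_simple_cancel_right]
    rw [← hx'] at hi'
    have h1 : T x = T x' * T (cs.simple i) := by
      conv_lhs => rw [e]
      apply hT.mul
      rw [← e, cs.length_simple]
      omega
    have e2 : x' * (cs.simple i * y) = x * y := by rw [e, mul_assoc]
    rcases len_cases (cs := cs) i y with hy | hy
    · rw [h1, mul_assoc, hT.lt hy, ← e2]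
      exact ih x' (by omega) _
    · rw [h1, mul_assoc, hT.gt hy, mul_add, mul_smul_comm, map_add, map_smul, Finsupp.add_apply,
        Finsupp.smul_apply]
      have h2 : x' * y ≠ 1 := by
        intro h
        have h3 : x' = y⁻¹ := mul_eq_one_iff_eq_inv.1 h
        have h4 : x = (cs.simple i * y)⁻¹ := by rw [e, h3, mul_inv_rev, cs.inv_simple]
        rw [h3, cs.length_inv] at hi'
        rw [← cs.length_inv x, h4, inv_inv] at hi'
        omega
      rw [(ih x' (by omega) y).2 h2, smul_zero, add_zero, ← e2]
      exact ih x' (by omega) _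

lemma IsHecke.repr_eq_tau (hT : IsHecke cs L T) (h : H) (c : W) :
    T.repr h c = T.repr (h * T c⁻¹) 1 := by
  classical
  induction h using basis_ind T with
  | zero => simp
  | add x y hx hy =>
    rw [add_mul, map_add, map_add, Finsupp.add_apply, Finsupp.add_apply, hx, hy]
  | smul a x hx =>
    rw [smul_mul_assoc, map_smul, map_smul, Finsupp.smul_apply, Finsupp.smul_apply, hx]
  | basis w =>
    rw [Basis.repr_self, Finsupp.single_apply]
    split_ifs with h
    · subst h
      rw [(hT.tau _ w rfl w⁻¹).1 (mul_inv_cancel w)]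
    · rw [(hT.tau _ w rfl c⁻¹).2 (fun h2 => h (by rwa [mul_inv_eq_one] at h2))]

/-- the coordinates of `h` are supported in `P` -/
def Su (T : Basis W A H) (P : W → Prop) (h : H) : Prop := ∀ z, ¬ P z → T.repr h z = 0

lemma Su.add {P : W → Prop} {g h : H} (hg : Su T P g) (hh : Su T P h) : Su T P (g + h) := by
  intro z hz
  rw [map_add, Finsupp.add_apply, hg z hz, hh z hz, add_zero]

lemma Su.smul {P : W → Prop} {h : H} (a : A) (hh : Su T P h) : Su T P (a • h) := by
  intro z hz
  rw [map_smul, Finsupp.smul_apply, hh z hz, smul_zero]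

lemma Su.basis {P : W → Prop} {w : W} (hw : P w) : Su T P (T w) := by
  classical
  intro z hz
  rw [Basis.repr_self, Finsupp.single_apply, if_neg]
  rintro rfl
  exact hz hw

/-- induction for elements with support in `P` -/
lemma Su.expand {P : W → Prop} {h : H} (hh : Su T P h) {Q : H → Prop} (zero : Q 0)
    (add : ∀ x y, Q x → Q y → Q (x + y)) (term : ∀ w, P w → Q (T.repr h w • T w)) : Q h := by
  classical
  have e : h = ∑ w ∈ (T.repr h).support, T.repr h w • T w := by
    conv_lhs => rw [← T.linearCombination_repr h]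
    rw [Finsupp.linearCombination_apply, Finsupp.sum]
  have key : ∀ s : Finset W, (∀ w ∈ s, P w) → Q (∑ w ∈ s, T.repr h w • T w) := by
    intro s
    induction s using Finset.induction_on with
    | empty => intro _; simpa using zero
    | insert a s ha ih =>
      intro hs
      rw [Finset.sum_insert ha]
      exact add _ _ (term a (hs a (Finset.mem_insert_self _ _)))
        (ih fun w hw => hs w (Finset.mem_insert_of_mem hw))
  rw [e]
  apply key
  intro w hw
  by_contra hc
  exact Finsupp.mem_support_iff.1 hw (hh w hc)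

/-- left multiplication by `T_w`, `w ∈ W_J`, preserves supports that are stable under `W_J` -/
lemma IsHecke.su_left (hT : IsHecke cs L T) {J : Set B} {P : W → Prop}
    (hP : ∀ i ∈ J, ∀ z, P z → P (cs.simple i * z)) [Fintype B] [DecidableEq B] :
    ∀ (n : ℕ) (w : W), cs.length w = n → w ∈ Par cs J → ∀ h, Su T P h → Su T P (T w * h) := by
  have hs : ∀ i ∈ J, ∀ h, Su T P h → Su T P (T (cs.simple i) * h) := by
    intro i hi h hh z hz
    have hz' : ¬ P (cs.simple i * z) := by
      intro h'
      have := hP i hi _ h'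
      rw [cs.simple_mul_simple_cancel_left] at this
      exact hz this
    rcases len_cases (cs := cs) i z with h1 | h1
    · rw [(hT.repr_simple i h z).1 h1, hh _ hz']
    · rw [(hT.repr_simple i h z).2 h1, hh _ hz', hh _ hz, mul_zero, add_zero]
  intro n
  induction n with
  | zero =>
    intro w hw _ h hh
    rw [cs.length_eq_zero_iff] at hw
    subst hw
    rwa [hT.one, one_mul]
  | succ n ih =>
    intro w hw hwJ h hh
    have hw1 : w ≠ 1 := by
      rintro rfl
      rw [cs.length_one] at hw
      omega
    obtain ⟨i, hi, hd⟩ := par_ldescent hwJ hw1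
    obtain ⟨w', hw'⟩ : ∃ w', w' = cs.simple i * w := ⟨_, rfl⟩
    have e : w = cs.simple i * w' := by rw [hw', cs.simple_mul_simple_cancel_left]
    have hlen : cs.length w = cs.length w' + 1 := by
      rw [← hw'] at hd
      rw [e] at hd ⊢
      rcases cs.length_simple_mul w' i with h | h <;> omega
    have h1 : T w = T (cs.simple i) * T w' := by
      rw [hT.lt, ← e]
      rw [← e]; omega
    rw [h1, mul_assoc]
    apply hs i hi
    apply ih w' (by omega) _ h hh
    rw [hw']
    exact Subgroup.mul_mem _ (simple_mem_par hi) hwJ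

lemma IsHecke.rt (hT : IsHecke cs L T) {i : B} {w : W}
    (h : cs.length w < cs.length (w * cs.simple i)) :
    T w * T (cs.simple i) = T (w * cs.simple i) := by
  rw [hT.mul]
  rcases cs.length_mul_simple w i with h1 | h1
  · rw [h1, cs.length_simple]
  · omega

lemma IsHecke.rgt (hT : IsHecke cs L T) {i : B} {w : W}
    (h : cs.length (w * cs.simple i) < cs.length w) :
    T w * T (cs.simple i) = T (w * cs.simple i) +
      (q (L (cs.simple i)) - q (-L (cs.simple i))) • T w := by
  obtain ⟨u, hu⟩ : ∃ u, u = w * cs.simple i := ⟨_, rfl⟩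
  have hw : w = u * cs.simple i := by rw [hu, cs.simple_mul_simple_cancel_right]
  rw [← hu] at h
  have h1 : T w = T u * T (cs.simple i) := by
    rw [hT.rt (by rw [← hw]; exact h), ← hw]
  rw [h1, mul_assoc, hT.quad, mul_add, mul_one, mul_smul_comm, ← hu]

lemma IsHecke.repr_simple_right (hT : IsHecke cs L T) (i : B) (h : H) (w : W) :
    ∃ a : A, T.repr (h * T (cs.simple i)) w = T.repr h (w * cs.simple i) + a * T.repr h w := by
  classical
  by_cases hc : cs.length w < cs.length (w * cs.simple i)
  · refine ⟨0, ?_⟩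
    rw [zero_mul, add_zero]
    induction h using basis_ind T with
    | zero => simp
    | add x y hx hy =>
      rw [add_mul, map_add, map_add, Finsupp.add_apply, Finsupp.add_apply, hx, hy]
    | smul a x hx =>
      rw [smul_mul_assoc, map_smul, map_smul, Finsupp.smul_apply, Finsupp.smul_apply, hx]
    | basis v =>
      have iff1 : v * cs.simple i = w ↔ v = w * cs.simple i := by
        constructor
        · intro he; rw [← he, cs.simple_mul_simple_cancel_right]
        · intro he; rw [he, cs.simple_mul_simple_cancel_right]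
      rcases rlen_cases (cs := cs) i v with hv | hv
      · rw [hT.rt hv, Basis.repr_self, Basis.repr_self, Finsupp.single_apply, Finsupp.single_apply]
        simp only [iff1]
      · rw [hT.rgt hv, map_add, map_smul, Basis.repr_self, Basis.repr_self, Finsupp.add_apply,
          Finsupp.smul_apply, Finsupp.single_apply, Finsupp.single_apply, Finsupp.single_apply]
        have hne : v ≠ w := by
          rintro rfl
          omega
        simp only [iff1, hne, if_false, smul_zero, add_zero]
  · refine ⟨q (L (cs.simple i)) - q (-L (cs.simple i)), ?_⟩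
    have hc' : cs.length (w * cs.simple i) < cs.length w := by
      rcases rlen_cases (cs := cs) i w with h | h
      · exact absurd h hc
      · exact h
    induction h using basis_ind T with
    | zero => simp
    | add x y hx hy =>
      rw [add_mul, map_add, map_add, Finsupp.add_apply, Finsupp.add_apply, Finsupp.add_apply, hx,
        hy]
      ring
    | smul a x hx =>
      rw [smul_mul_assoc, map_smul, map_smul, Finsupp.smul_apply, Finsupp.smul_apply,
        Finsupp.smul_apply, hx]
      simp only [smul_eq_mul]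
      ring
    | basis v =>
      have iff1 : v * cs.simple i = w ↔ v = w * cs.simple i := by
        constructor
        · intro he; rw [← he, cs.simple_mul_simple_cancel_right]
        · intro he; rw [he, cs.simple_mul_simple_cancel_right]
      rcases rlen_cases (cs := cs) i v with hv | hv
      · rw [hT.rt hv, Basis.repr_self, Basis.repr_self, Finsupp.single_apply, Finsupp.single_apply,
          Finsupp.single_apply]
        have hne : v ≠ w := by
          rintro rfl
          omega
        simp only [iff1, hne, if_false, mul_zero, add_zero]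
      · rw [hT.rgt hv, map_add, map_smul, Basis.repr_self, Basis.repr_self, Finsupp.add_apply,
          Finsupp.smul_apply, Finsupp.single_apply, Finsupp.single_apply, Finsupp.single_apply]
        simp only [iff1, smul_eq_mul]

lemma IsHecke.su_right (hT : IsHecke cs L T) {J : Set B} {P : W → Prop}
    (hP : ∀ i ∈ J, ∀ z, P z → P (z * cs.simple i)) [Fintype B] [DecidableEq B] :
    ∀ (n : ℕ) (w : W), cs.length w = n → w ∈ Par cs J → ∀ h, Su T P h → Su T P (h * T w) := by
  have hs : ∀ i ∈ J, ∀ h, Su T P h → Su T P (h * T (cs.simple i)) := by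
    intro i hi h hh z hz
    have hz' : ¬ P (z * cs.simple i) := by
      intro h'
      have := hP i hi _ h'
      rw [cs.simple_mul_simple_cancel_right] at this
      exact hz this
    obtain ⟨a, ha⟩ := hT.repr_simple_right i h z
    rw [ha, hh _ hz', hh _ hz, mul_zero, add_zero]
  intro n
  induction n with
  | zero =>
    intro w hw _ h hh
    rw [cs.length_eq_zero_iff] at hw
    subst hw
    rwa [hT.one, mul_one]
  | succ n ih =>
    intro w hw hwJ h hh
    have hw1 : w ≠ 1 := by
      rintro rfl
      rw [cs.length_one] at hw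
      omega
    obtain ⟨i, hi, hd⟩ := par_rdescent hwJ hw1
    obtain ⟨w', hw'⟩ : ∃ w', w' = w * cs.simple i := ⟨_, rfl⟩
    have e : w = w' * cs.simple i := by rw [hw', cs.simple_mul_simple_cancel_right]
    have hlen : cs.length w = cs.length w' + 1 := by
      rw [← hw'] at hd
      rw [e] at hd ⊢
      rcases cs.length_mul_simple w' i with h | h <;> omega
    have h1 : T w = T w' * T (cs.simple i) := by
      rw [hT.rt, ← e]
      rw [← e]; omega
    rw [h1, ← mul_assoc]
    apply hs i hi
    apply ih w' (by omega) _ h hh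
    rw [hw']
    exact Subgroup.mul_mem _ hwJ (simple_mem_par hi)

/-- degree bound for products of basis elements indexed by `W_J` -/
def Bd (cs : CoxeterSystem M W) (T : Basis W A H) (J : Set B) (n : ℤ) : Prop :=
  ∀ x ∈ Par cs J, ∀ y ∈ Par cs J, DgH T (T x * T y) n

section main

variable [Fintype B] [DecidableEq B]

/-- the component in `W_{J3}` of `T_a T_b` for minimal `a`, `b` is `1` or `0` -/
lemma IsHecke.coef_min (hT : IsHecke cs L T) {J : Set B} {a b c : W} (ha : LMin cs J a)
    (hb : RMin cs J b) (hc : c ∈ Par cs J) :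
    (c = 1 ∧ a * b = 1 → T.repr (T a * T b) c = 1) ∧
      (¬ (c = 1 ∧ a * b = 1) → T.repr (T a * T b) c = 0) := by
  have hc' : c⁻¹ ∈ Par cs J := Subgroup.inv_mem _ hc
  have h1 : T b * T c⁻¹ = T (b * c⁻¹) := (hT.mul _ _ (hb.mul hc')).symm
  rw [hT.repr_eq_tau, mul_assoc, h1]
  refine ⟨fun h => ?_, fun h => ?_⟩
  · obtain ⟨rfl, hab⟩ := h
    rw [(hT.tau _ a rfl _).1 (by rw [inv_one, mul_one, hab])]
  · rw [(hT.tau _ a rfl _).2]
    intro h2
    apply h
    have h3 : a = c * b⁻¹ := by
      have := mul_eq_one_iff_eq_inv.1 h2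
      rw [this, mul_inv_rev, inv_inv]
    have h4 : b⁻¹ = c⁻¹ * a := by rw [h3]; group
    have h5 := (rmin_iff.1 hb).mul hc
    rw [← h3] at h5
    have h6 := ha.mul hc'
    rw [← h4] at h6
    have h7 : cs.length c = 0 := by omega
    have h8 : c = 1 := cs.length_eq_zero_iff.1 h7
    refine ⟨h8, ?_⟩
    rw [h3, h8]; group

lemma IsHecke.su_mul (hT : IsHecke cs L T) {J : Set B} {x y : W} (hx : x ∈ Par cs J)
    (hy : y ∈ Par cs J) : Su T (fun z => z ∈ Par cs J) (T x * T y) :=
  hT.su_left (J := J) (fun _ hi _ hz => Subgroup.mul_mem _ (simple_mem_par hi) hz) _ x rfl hx _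
    (Su.basis hy)

/-- the inductive step, case where one of the inner factors is not in `W_{J3}` -/
lemma IsHecke.step (hT : IsHecke cs L T) {K : Set B} {i j : B} (hi : i ∈ K) (hj : j ∈ K)
    (hij : M i j = 0) {n : ℤ} (h1 : Bd cs T (K \ {j}) n) {x y x' y' a b : W}
    (hx : x = x' * a) (hx' : RMin cs (K \ {j}) x') (ha : a ∈ Par cs (K \ {j}))
    (hy : y = b * y') (hy' : LMin cs (K \ {j}) y') (hb : b ∈ Par cs (K \ {j}))
    (hxl : cs.length x = cs.length x' + cs.length a)
    (hyl : cs.length y = cs.length b + cs.length y')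
    (hxK : x ∈ Par cs K) (hyK : y ∈ Par cs K)
    (hab : a ∉ Par cs (K \ {i, j}) ∨ b ∉ Par cs (K \ {i, j}))
    (ih : ∀ u ∈ Par cs K, ∀ v ∈ Par cs K, cs.length u + cs.length v < cs.length x + cs.length y →
      DgH T (T u * T v) n) : DgH T (T x * T y) n := by
  classical
  have hJ31 : K \ {i, j} ⊆ K \ {j} := by
    rintro k ⟨hk, hk2⟩
    refine ⟨hk, fun h => hk2 ?_⟩
    rw [Set.mem_singleton_iff] at h
    rw [h]; simp
  have hJK : K \ {j} ⊆ K := Set.sdiff_subset
  obtain ⟨w, a', ea, ha'm, hw, hal⟩ := exists_ldec (cs := cs) (K \ {i, j}) a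
  obtain ⟨b', v, eb, hb'm, hv, hbl⟩ := exists_rdec (cs := cs) (K \ {i, j}) _ b rfl
  have ha' : a' ∈ Par cs (K \ {j}) := by
    have : a' = w⁻¹ * a := by rw [ea]; group
    rw [this]
    exact Subgroup.mul_mem _ (Subgroup.inv_mem _ (par_mono hJ31 hw)) ha
  have hb' : b' ∈ Par cs (K \ {j}) := by
    have : b' = b * v⁻¹ := by rw [eb]; group
    rw [this]
    exact Subgroup.mul_mem _ hb (Subgroup.inv_mem _ (par_mono hJ31 hv))
  have hx'K : x' ∈ Par cs K := by
    have : x' = x * a⁻¹ := by rw [hx]; group
    rw [this]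
    exact Subgroup.mul_mem _ hxK (Subgroup.inv_mem _ (par_mono hJK ha))
  have hy'K : y' ∈ Par cs K := by
    have : y' = b⁻¹ * y := by rw [hy]; group
    rw [this]
    exact Subgroup.mul_mem _ (Subgroup.inv_mem _ (par_mono hJK hb)) hyK
  -- factorizations
  have Tx : T x = T x' * T a := by rw [hx]; exact hT.mul _ _ (by rw [← hx]; exact hxl)
  have Ty : T y = T b * T y' := by rw [hy]; exact hT.mul _ _ (by rw [← hy]; exact hyl)
  have Ta : T a = T w * T a' := by rw [ea]; exact hT.mul _ _ (by rw [← ea]; exact hal)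
  have Tb : T b = T b' * T v := by rw [eb]; exact hT.mul _ _ (by rw [← eb]; exact hbl)
  -- the part outside `W_{J3}`
  set P : W → Prop := fun z => z ∈ Par cs (K \ {j}) ∧ z ∉ Par cs (K \ {i, j}) with hP
  set g : H := T a' * T b' - (if a' * b' = 1 then (1 : A) else 0) • (1 : H) with hg
  have hgP : Su T P g := by
    intro z hz
    rw [hg, map_sub, map_smul, Finsupp.sub_apply, Finsupp.smul_apply, ← hT.one, Basis.repr_self,
      Finsupp.single_apply]
    by_cases hz1 : z ∈ Par cs (K \ {j})
    · have hz3 : z ∈ Par cs (K \ {i, j}) := by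
        by_contra h
        exact hz ⟨hz1, h⟩
      have hcm := hT.coef_min ha'm hb'm hz3
      by_cases e1 : z = 1
      · by_cases e2 : a' * b' = 1
        · rw [hcm.1 ⟨e1, e2⟩]
          simp [e1, e2]
        · rw [hcm.2 (fun h => e2 h.2)]
          simp [e2]
      · rw [hcm.2 (fun h => e1 h.1)]
        simp [Ne.symm e1]
    · have e1 : (1 : W) ≠ z := by
        rintro rfl
        exact hz1 (Subgroup.one_mem _)
      rw [hT.su_mul ha' hb' z hz1, if_neg e1, smul_zero, sub_zero]
  have hPl : ∀ k ∈ K \ {i, j}, ∀ z, P z → P (cs.simple k * z) := by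
    rintro k hk z ⟨hz1, hz2⟩
    refine ⟨Subgroup.mul_mem _ (simple_mem_par (hJ31 hk)) hz1, fun h => hz2 ?_⟩
    have := Subgroup.mul_mem _ (simple_mem_par (cs := cs) hk) h
    rwa [cs.simple_mul_simple_cancel_left] at this
  have hPr : ∀ k ∈ K \ {i, j}, ∀ z, P z → P (z * cs.simple k) := by
    rintro k hk z ⟨hz1, hz2⟩
    refine ⟨Subgroup.mul_mem _ hz1 (simple_mem_par (hJ31 hk)), fun h => hz2 ?_⟩
    have := Subgroup.mul_mem _ h (simple_mem_par (cs := cs) hk)
    rwa [cs.simple_mul_simple_cancel_right] at this
  have hgP' : Su T P (T w * g * T v) :=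
    hT.su_right hPr _ v rfl hv _ (hT.su_left hPl _ w rfl hw _ hgP)
  have eab : T a * T b = T w * g * T v + (if a' * b' = 1 then (1 : A) else 0) • (T w * T v) := by
    rw [Ta, Tb, hg, mul_sub, sub_mul, mul_smul_comm, smul_mul_assoc, mul_one]
    simp only [mul_assoc]
    abel
  -- its coefficients are bounded
  have hco : ∀ c, P c → Dg (T.repr (T w * g * T v) c) n := by
    intro c hc
    have h2 := h1 a ha b hb c
    rw [eab, map_add, map_smul, Finsupp.add_apply, Finsupp.smul_apply,
      hT.su_mul hw hv c hc.2, smul_zero, add_zero] at h2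
    exact h2
  have e : T x * T y = T x' * (T w * g * T v) * T y' +
      (if a' * b' = 1 then (1 : A) else 0) • (T x' * T w * (T v * T y')) := by
    rw [Tx, Ty]
    have : T x' * T a * (T b * T y') = T x' * (T a * T b) * T y' := by
      simp only [mul_assoc]
    rw [this, eab, mul_add, add_mul, mul_smul_comm, smul_mul_assoc]
    simp only [mul_assoc]
  rw [e]
  apply DgH.add
  · refine hgP'.expand (Q := fun h => DgH T (T x' * h * T y') n) ?_ ?_ ?_
    · simpa using DgH.zero n
    · intro p r hp hr
      rw [mul_add, add_mul]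
      exact hp.add hr
    · intro c hc
      have e3 : T x' * T c * T y' = T (x' * c * y') := by
        rw [← hT.mul x' c (hx'.mul hc.1), ← hT.mul (x' * c) y']
        rw [length_sandwich _ K i j hi hj hij x' c y' rfl hx'K hy'K hx' hc.1 hc.2 hy',
          hx'.mul hc.1]
      rw [mul_smul_comm, smul_mul_assoc, e3]
      have h4 : DgH T (T (x' * c * y')) 0 := by
        intro z
        rw [Basis.repr_self, Finsupp.single_apply]
        split_ifs
        · exact dg_one le_rfl
        · exact dg_zero _
      have := (hco c hc)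
      have h5 := DgH.smul this h4
      rwa [add_zero] at h5
  · by_cases hd : a' * b' = 1
    · rw [if_pos hd, one_smul]
      have hw' : w ∈ Par cs (K \ {j}) := par_mono hJ31 hw
      have hv' : v ∈ Par cs (K \ {j}) := par_mono hJ31 hv
      rw [← hT.mul x' w (hx'.mul hw'), ← hT.mul v y' (hy'.mul hv')]
      have ha1 : a' ≠ 1 := by
        rintro rfl
        rw [one_mul] at hd
        rw [hd, one_mul] at eb
        rw [mul_one] at ea
        rcases hab with h | h
        · exact h (ea ▸ hw)
        · exact h (eb ▸ hv)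
      have ha1' : 0 < cs.length a' := by
        rcases Nat.eq_zero_or_pos (cs.length a') with h | h
        · exact absurd (cs.length_eq_zero_iff.1 h) ha1
        · exact h
      apply ih _ (Subgroup.mul_mem _ hx'K (par_mono hJK hw')) _
        (Subgroup.mul_mem _ (par_mono hJK hv') hy'K)
      rw [hx'.mul hw', hy'.mul hv']
      omega
    · rw [if_neg hd, zero_smul]
      exact DgH.zero n

/-- **One step of the reduction.** -/
theorem IsHecke.bd_of_inf (hT : IsHecke cs L T) {K : Set B} {i j : B} (hi : i ∈ K) (hj : j ∈ K)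
    (hij : M i j = 0) {n : ℤ} (h1 : Bd cs T (K \ {j}) n) (h2 : Bd cs T (K \ {i}) n) :
    Bd cs T K n := by
  classical
  have hJ31 : K \ {i, j} ⊆ K \ {j} := by
    rintro k ⟨hk, hk2⟩
    refine ⟨hk, fun h => hk2 ?_⟩
    rw [Set.mem_singleton_iff] at h
    rw [h]; simp
  have hJ32 : K \ {i, j} ⊆ K \ {i} := by
    rintro k ⟨hk, hk2⟩
    refine ⟨hk, fun h => hk2 ?_⟩
    rw [Set.mem_singleton_iff] at h
    rw [h]; simp
  have hne : i ≠ j := by
    rintro rfl
    rw [M.diagonal] at hij
    exact one_ne_zero hij
  -- elements whose two inner parts lie in `W_{J3}` are in `W_{J3}`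
  have inner : ∀ x ∈ Par cs K, ∀ x' a x'' a'', x = x' * a → RMin cs (K \ {j}) x' →
      a ∈ Par cs (K \ {i, j}) → x = x'' * a'' → RMin cs (K \ {i}) x'' →
      a'' ∈ Par cs (K \ {i, j}) → x ∈ Par cs (K \ {i, j}) := by
    intro x hx x' a x'' a'' e1 m1 p1 e2 m2 p2
    have hu : a * a''⁻¹ ∈ Par cs (K \ {i, j}) := Subgroup.mul_mem _ p1 (Subgroup.inv_mem _ p2)
    have e3 : x'' = x' * (a * a''⁻¹) := by
      rw [← mul_assoc, ← e1, e2]; group
    have e4 : x' = x'' * (a * a''⁻¹)⁻¹ := by rw [e3]; group
    have l1 := (m1.mono hJ31).mul hu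
    rw [← e3] at l1
    have l2 := (m2.mono hJ32).mul (Subgroup.inv_mem _ hu)
    rw [← e4, cs.length_inv] at l2
    have l3 : cs.length (a * a''⁻¹) = 0 := by omega
    have l4 : a * a''⁻¹ = 1 := cs.length_eq_zero_iff.1 l3
    rw [l4, mul_one] at e3
    have hx'K : x' ∈ Par cs K := by
      have : x' = x * a⁻¹ := by rw [e1]; group
      rw [this]
      exact Subgroup.mul_mem _ hx (Subgroup.inv_mem _ (par_mono (hJ31.trans Set.sdiff_subset) p1))
    have hx'1 : x' = 1 := by
      by_contra hcon
      obtain ⟨k, hk, hd⟩ := par_rdescent hx'K hcon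
      by_cases hkj : k = j
      · subst hkj
        have := m2 k ⟨hk, fun h => hne (by rw [Set.mem_singleton_iff] at h; exact h.symm)⟩
        rw [e3] at this
        omega
      · have := m1 k ⟨hk, hkj⟩
        omega
    rw [e1, hx'1, one_mul]
    exact p1
  have key : ∀ N : ℕ, ∀ x ∈ Par cs K, ∀ y ∈ Par cs K, cs.length x + cs.length y = N →
      DgH T (T x * T y) n := by
    intro N
    induction N using Nat.strong_induction_on with
    | _ N ihN =>
      intro x hx y hy hN
      have ih : ∀ u ∈ Par cs K, ∀ v ∈ Par cs K,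
          cs.length u + cs.length v < cs.length x + cs.length y → DgH T (T u * T v) n :=
        fun u hu v hv h => ihN _ (by omega) u hu v hv rfl
      obtain ⟨x', a, ex, mx, pa, lx⟩ := exists_rdec (cs := cs) (K \ {j}) _ x rfl
      obtain ⟨b, y', ey, my, pb, ly⟩ := exists_ldec (cs := cs) (K \ {j}) y
      by_cases hab : a ∉ Par cs (K \ {i, j}) ∨ b ∉ Par cs (K \ {i, j})
      · exact hT.step hi hj hij h1 ex mx pa ey my pb lx ly hx hy hab ih
      push Not at hab
      obtain ⟨x'', a'', ex2, mx2, pa2, lx2⟩ := exists_rdec (cs := cs) (K \ {i}) _ x rfl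
      obtain ⟨b'', y'', ey2, my2, pb2, ly2⟩ := exists_ldec (cs := cs) (K \ {i}) y
      have hpair : K \ {i, j} = K \ {j, i} := by rw [Set.pair_comm]
      by_cases hab2 : a'' ∉ Par cs (K \ {j, i}) ∨ b'' ∉ Par cs (K \ {j, i})
      · exact hT.step hj hi (by rw [M.symmetric]; exact hij) h2 ex2 mx2 pa2 ey2 my2 pb2 lx2 ly2
          hx hy hab2 ih
      push Not at hab2
      rw [← hpair] at hab2
      have hx3 := inner x hx x' a x'' a'' ex mx hab.1 ex2 mx2 hab2.1
      have hy3' := inner y⁻¹ (Subgroup.inv_mem _ hy) y'⁻¹ b⁻¹ y''⁻¹ b''⁻¹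
        (by rw [← mul_inv_rev, ← ey]) (lmin_iff.1 my) (Subgroup.inv_mem _ hab.2)
        (by rw [← mul_inv_rev, ← ey2]) (lmin_iff.1 my2) (Subgroup.inv_mem _ hab2.2)
      have hy3 : y ∈ Par cs (K \ {i, j}) := by
        have := Subgroup.inv_mem _ hy3'
        rwa [inv_inv] at this
      exact h1 x (par_mono hJ31 hx3) y (par_mono hJ31 hy3)
  exact fun x hx y hy => key _ x hx y hy rfl

/-- a set of generators is 2-spherical if no two of them generate an infinite group -/
def TwoSph (M : CoxeterMatrix B) (J : Set B) : Prop := ∀ i ∈ J, ∀ j ∈ J, M i j ≠ 0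

theorem IsHecke.bd_of_twoSph (hT : IsHecke cs L T) {n : ℤ} : ∀ (N : ℕ) (K : Finset B), K.card = N →
    (∀ J : Set B, J ⊆ K → TwoSph M J → Bd cs T J n) → Bd cs T K n := by
  intro N
  induction N using Nat.strong_induction_on with
  | _ N ih =>
    intro K hK h
    by_cases h2 : TwoSph M (K : Set B)
    · exact h K subset_rfl h2
    unfold TwoSph at h2
    push Not at h2
    obtain ⟨i, hi, j, hj, hij⟩ := h2
    have sub : ∀ k ∈ K, Bd cs T ((K : Set B) \ {k}) n := by
      intro k hk
      have := ih (K.erase k).card (by rw [← hK]; exact Finset.card_erase_lt_of_mem hk) (K.erase k)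
        rfl (fun J hJ hJ2 => h J (hJ.trans (by
          rw [Finset.coe_erase]; exact Set.sdiff_subset)) hJ2)
      rwa [Finset.coe_erase] at this
    exact hT.bd_of_inf hi hj hij (sub j hj) (sub i hi)

end main

end Pool.Agent.TH5.BD
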