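import Mathlib
import Pool.Agent.TH5.BD.Defs

set_option autoImplicit false

/-!
# Definitions for the exact form of the bound
-/

namespace Pool.Agent.TH5.BD

variable {B : Type*} {M : CoxeterMatrix B} {W : Type*} [Group W]

/-- the standard parabolic subgroup `W_J`, generated by the simple reflections in `J` -/
def WJ (cs : CoxeterSystem M W) (J : Set B) : Subgroup W := Subgroup.closure (cs.simple '' J)

/-- `J` is 2-spherical: `m(s,t) < ∞` for all `s, t ∈ J` (infinite labels are coded by `0`) -/
def TwoSpherical (M : CoxeterMatrix B) (J : Set B) : Prop := ∀ i ∈ J, ∀ j ∈ J, M i j ≠ 0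

/-- `N = N_0`, the largest value of `L` on the finite standard parabolic subgroups -/
def IsNZero (cs : CoxeterSystem M W) (L : W → ℤ) (N : ℕ) : Prop :=
  IsGreatest {n : ℤ | ∃ I : Set B, (WJ cs I : Set W).Finite ∧ ∃ w ∈ WJ cs I, n = L w} (N : ℤ)

end Pool.Agent.TH5.BD
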