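import Mathlib
import Pool.Agent.TH5.BD.Reduce
import Pool.Agent.TH5.BD.ReduceDefs

set_option autoImplicit false
set_option linter.unusedSectionVars false

namespace Pool.Agent.TH5.BD

open CoxeterSystem Module

variable {B : Type*} {M : CoxeterMatrix B} {W : Type*} [Group W] {cs : CoxeterSystem M W}
variable {H : Type*} [Ring H] [Algebra A H] {L : W → ℤ} {T : Basis W A H}

lemma IsWeight.one (hL : IsWeight cs L) : L 1 = 0 := by
  have := hL.add 1 1 (by simp)
  rw [one_mul] at this
  omega

/-- the degree of `T_x T_y` is at most `L(x)` -/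
lemma IsHecke.dg_left (hT : IsHecke cs L T) (hL : IsWeight cs L) : ∀ (n : ℕ) (x : W),
    cs.length x = n → ∀ y, DgH T (T x * T y) (L x) := by
  classical
  intro n
  induction n with
  | zero =>
    intro x hx y z
    rw [cs.length_eq_zero_iff] at hx
    subst hx
    rw [hT.one, one_mul, hL.one, Basis.repr_self, Finsupp.single_apply]
    split_ifs
    · exact dg_one le_rfl
    · exact dg_zero _
  | succ n ih =>
    intro x hx y z
    have hx1 : x ≠ 1 := by
      rintro rfl
      rw [cs.length_one] at hx
      omega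
    obtain ⟨i, hi⟩ := cs.exists_leftDescent_of_ne_one hx1
    have hi' : cs.length (cs.simple i * x) + 1 = cs.length x := cs.isLeftDescent_iff.mp hi
    obtain ⟨x', hx'⟩ : ∃ x', x' = cs.simple i * x := ⟨_, rfl⟩
    have e : x = cs.simple i * x' := by rw [hx', cs.simple_mul_simple_cancel_left]
    rw [← hx'] at hi'
    have h1 : T x = T (cs.simple i) * T x' := by
      conv_lhs => rw [e]
      apply hT.mul
      rw [← e, cs.length_simple]
      omega
    have h2 : L x = L x' + L (cs.simple i) := by
      conv_lhs => rw [e]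
      rw [hL.add, add_comm]
      rw [← e, cs.length_simple]
      omega
    have ih' := ih x' (by omega) y
    have hp := hL.pos i
    rw [h1, mul_assoc, h2]
    rcases len_cases (cs := cs) i z with hz | hz
    · rw [(hT.repr_simple i _ z).1 hz]
      exact (ih' _).mono (by omega)
    · rw [(hT.repr_simple i _ z).2 hz]
      apply Dg.add
      · exact (ih' _).mono (by omega)
      · have h3 : Dg (q (L (cs.simple i)) - q (-L (cs.simple i))) (L (cs.simple i)) := by
          intro m hm
          rw [AddMonoidAlgebra.coeff_sub, Finsupp.sub_apply, LaurentPolynomial.T_apply,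
            LaurentPolynomial.T_apply, if_neg (by omega), if_neg (by omega), sub_zero]
        have h4 := h3.mul (ih' z)
        rwa [add_comm] at h4

lemma degree_le_of_lt {p : A} {d : ℤ} (h : p.degree < (d : WithBot ℤ)) : Dg p (d - 1) := by
  intro m hm
  by_contra hc
  have h1 : ¬ Dg p (m - 1) := fun h2 => hc (h2 m (by omega))
  rw [dg_iff, not_le] at h1
  have h2 : ((m - 1 : ℤ) : WithBot ℤ) < (d : WithBot ℤ) := h1.trans h
  have h3 : m - 1 < d := by exact_mod_cast h2
  have h4 : ¬ (d : WithBot ℤ) ≤ p.degree := not_le.2 h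
  apply h4
  have h5 : ¬ Dg p (d - 1) := fun h6 => hc (h6 m hm)
  rw [dg_iff, not_le] at h5
  revert h5
  generalize p.degree = e
  intro h5
  induction e using WithBot.recBotCoe with
  | bot => exact absurd h5 (by simp)
  | coe e =>
    have h7 : d - 1 < e := by exact_mod_cast h5
    have h8 : d ≤ e := by omega
    exact_mod_cast h8

lemma not_dg_pred {p : A} {d : ℤ} (h : p.degree = (d : WithBot ℤ)) : ¬ Dg p (d - 1) := by
  rw [dg_iff, h]
  intro hc
  have : d ≤ d - 1 := by exact_mod_cast hc
  omega

variable [Fintype B] [DecidableEq B]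

theorem IsHecke.main_twoSph (hT : IsHecke cs L T) (x y z : W) :
    ∃ J : Set B, TwoSpherical M J ∧ ∃ x' ∈ WJ cs J, ∃ y' ∈ WJ cs J, ∃ z' ∈ WJ cs J,
      (T.repr (T x * T y) z).degree ≤ (T.repr (T x' * T y') z').degree := by
  classical
  obtain ⟨e, hp⟩ : ∃ e, e = (T.repr (T x * T y) z).degree := ⟨_, rfl⟩
  rw [← hp]
  induction e using WithBot.recBotCoe with
  | bot =>
    exact ⟨∅, fun i hi => absurd hi (by simp), 1, Subgroup.one_mem _, 1, Subgroup.one_mem _, 1,
      Subgroup.one_mem _, bot_le⟩
  | coe d =>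
  by_contra hcon
  push Not at hcon
  have key : Bd cs T ((Finset.univ : Finset B) : Set B) (d - 1) := by
    apply hT.bd_of_twoSph _ _ rfl
    intro J _ hJ x' hx' y' hy' z'
    by_cases hz' : z' ∈ Par cs J
    · have h1 := hcon J hJ x' hx' y' hy' z' hz'
      exact degree_le_of_lt h1
    · rw [hT.su_mul hx' hy' z' hz']
      exact dg_zero _
  have hm : ∀ w : W, w ∈ Par cs ((Finset.univ : Finset B) : Set B) := by
    intro w
    have h1 : (Par cs ((Finset.univ : Finset B) : Set B)) = ⊤ := by
      unfold Par
      rw [Finset.coe_univ, Set.image_univ, cs.subgroup_closure_range_simple]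
    rw [h1]
    trivial
  exact not_dg_pred hp.symm (key x (hm x) y (hm y) z)

theorem IsHecke.main_fc (hT : IsHecke cs L T) (hL : IsWeight cs L)
    (hfc : ∀ J : Set B, TwoSpherical M J → (WJ cs J : Set W).Finite) {N : ℕ}
    (hN : IsNZero cs L N) (x y : W) : DgH T (T x * T y) N := by
  intro z
  obtain ⟨J, hJ, x', hx', y', hy', z', hz', h⟩ := hT.main_twoSph x y z
  rw [dg_iff]
  refine h.trans (dg_iff.1 ?_)
  refine (hT.dg_left hL _ x' rfl y' z').mono ?_
  exact hN.2 ⟨J, hfc J hJ, x', hx', rfl⟩

end Pool.Agent.TH5.BD
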